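import Pool.Agent.H448R3.Val

set_option autoImplicit false

/-! The allocation lemma. -/

namespace Pool.Agent.H448R3

open Helper743

/-- the number of `j ∈ [a, k)` with `p j = 1` -/
def cnt (p : ℕ → ℕ) (a k : ℕ) : ℕ :=
  Nat.rec (motive := fun _ => ℕ) 0
    (fun j acc => acc + (bif (!decide (j < a)) && (p j == 1) then 1 else 0)) k

theorem cnt_succ (p : ℕ → ℕ) (a k : ℕ) :
    cnt p a (k + 1) = cnt p a k + (if a ≤ k ∧ p k = 1 then 1 else 0) := by
  show cnt p a k + (bif (!decide (k < a)) && (p k == 1) then 1 else 0) = _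
  congr 1
  by_cases h1 : a ≤ k
  · rw [decide_eq_false (not_lt.2 h1)]
    by_cases h2 : p k = 1
    · rw [if_pos ⟨h1, h2⟩, h2]; rfl
    · have h3 : (p k == 1) = false := by simp [h2]
      rw [h3, if_neg (fun h => h2 h.2)]; rfl
  · rw [decide_eq_true (not_le.1 h1), if_neg (fun h => h1 h.1)]; rfl

theorem cnt_mono (p : ℕ → ℕ) (a : ℕ) {k k' : ℕ} (h : k ≤ k') : cnt p a k ≤ cnt p a k' := by
  induction k' with
  | zero => rw [Nat.le_zero.1 h]
  | succ m ih =>
    rcases Nat.lt_or_eq_of_le h with h' | rfl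
    · rw [cnt_succ]; exact le_trans (ih (Nat.lt_succ_iff.1 h')) (Nat.le_add_right _ _)
    · exact le_refl _

theorem cnt_lt {p : ℕ → ℕ} {a k k' : ℕ} (h : k < k') (ha : a ≤ k) (hp : p k = 1) :
    cnt p a k < cnt p a k' := by
  refine lt_of_lt_of_le ?_ (cnt_mono p a (show k + 1 ≤ k' from h))
  rw [cnt_succ, if_pos ⟨ha, hp⟩]
  exact Nat.lt_succ_self _

theorem cnt_inj {p : ℕ → ℕ} {a j k : ℕ} (hj : a ≤ j) (hk : a ≤ k) (hpj : p j = 1) (hpk : p k = 1)
    (h : cnt p a j = cnt p a k) : j = k := by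
  rcases lt_trichotomy j k with h1 | h1 | h1
  · exact absurd h (cnt_lt h1 hj hpj).ne
  · exact h1
  · exact absurd h (cnt_lt h1 hk hpk).ne'

theorem cnt_congr {p p' : ℕ → ℕ} {a k : ℕ} (h : ∀ j < k, p j = p' j) : cnt p a k = cnt p' a k := by
  induction k with
  | zero => rfl
  | succ k ih =>
    rw [cnt_succ, cnt_succ, ih (fun j hj => h j (Nat.lt_succ_of_lt hj)), h k (Nat.lt_succ_self k)]

theorem cnt_comp {α : Type} [Primcodable α] {p : α → ℕ → ℕ} {a k : α → ℕ}
    (hp : Computable₂ p) (ha : Computable a) (hk : Computable k) :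
    Computable fun x => cnt (p x) (a x) (k x) := by
  have h3 : Computable₂ fun (x : α) (q : ℕ × ℕ) =>
      q.2 + (bif (!decide (q.1 < a x)) && (p x q.1 == 1) then 1 else 0) := by
    have c0 : Computable fun q : α × (ℕ × ℕ) => q.2.1 := Computable.fst.comp Computable.snd
    have c1 : Computable fun q : α × (ℕ × ℕ) => (!decide (q.2.1 < a q.1)) && (p q.1 q.2.1 == 1) :=
      cand (cnot (clt c0 (ha.comp Computable.fst)))
        (cbeqN (hp.comp Computable.fst c0) (Computable.const 1))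
    exact (cadd (Computable.snd.comp Computable.snd)
      (Computable.cond c1 (Computable.const 1) (Computable.const 0))).to₂
  exact (Computable.nat_rec hk (Computable.const 0) h3).of_eq fun a => rfl

/-- the slot function -/
def slotT (x : ℕ) : ℕ := Nat.log 4 (Nat.log 2 x)
/-- the slot number -/
def slotI (x : ℕ) : ℕ := (Nat.log 2 x - 4 ^ slotT x) / slotT x

/-- the test for the level used at `x` -/
def slotF (p : ℕ → ℕ) (x : ℕ) (k : ℕ) : Option ℕ :=
  bif ((!decide (k < 4 ^ (slotT x + 1))) && (p k == 1)) &&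
    (cnt p (4 ^ (slotT x + 1)) k == slotI x) then some k else none

/-- the level used at `x` -/
def slotK (p : ℕ → ℕ) (x : ℕ) : ℕ := (fs (slotF p x) (4 ^ (slotT x + 2))).getD 0

theorem slotT_comp : Computable slotT := log4_comp.comp log2_comp
theorem slotI_comp : Computable slotI :=
  cdiv (csub log2_comp (pow4_comp.comp slotT_comp)) slotT_comp

theorem slotK_rec {O : Set (ℕ →. ℕ)} {p : ℕ → ℕ} (hp : RecT O p) : RecT O (slotK p) := by
  have hΦ : Computable₂ fun (σ : List ℕ) (x : ℕ) => slotK (fun j => σ.getD j 0) x := by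
    have a1 : Computable₂ fun (q : (List ℕ × ℕ) × ℕ) (j : ℕ) => q.1.1.getD j 0 :=
      (Primrec.list_getD 0).to_comp.comp (Computable.fst.comp (Computable.fst.comp Computable.fst))
        Computable.snd
    have a2 : Computable fun q : (List ℕ × ℕ) × ℕ => q.1.1.getD q.2 0 :=
      (Primrec.list_getD 0).to_comp.comp (Computable.fst.comp Computable.fst) Computable.snd
    have a3 : Computable fun q : (List ℕ × ℕ) × ℕ => 4 ^ (slotT q.1.2 + 1) :=
      pow4_comp.comp (cadd (slotT_comp.comp (Computable.snd.comp Computable.fst))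
        (Computable.const 1))
    have a4 : Computable₂ fun (r : List ℕ × ℕ) (k : ℕ) => slotF (fun j => r.1.getD j 0) r.2 k :=
      Computable.cond (cand (cand (cnot (clt Computable.snd a3)) (cbeqN a2 (Computable.const 1)))
        (cbeqN (cnt_comp a1 a3 Computable.snd)
          (slotI_comp.comp (Computable.snd.comp Computable.fst))))
        (Computable.option_some.comp Computable.snd) (Computable.const none)
    exact Computable.option_getD (fs_comp a4
      (pow4_comp.comp (cadd (slotT_comp.comp Computable.snd) (Computable.const 2))))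
      (Computable.const 0)
  have hu : Computable fun x : ℕ => 4 ^ (slotT x + 2) :=
    pow4_comp.comp (cadd slotT_comp (Computable.const 2))
  refine (tr_pre hp hu hΦ).of_eq ?_
  intro x
  congr 1
  show (fs (slotF (fun j => (pre p (4 ^ (slotT x + 2))).getD j 0) x) (4 ^ (slotT x + 2))).getD 0 =
    (fs (slotF p x) (4 ^ (slotT x + 2))).getD 0
  congr 1
  refine fs_congr ?_
  intro k hk
  have h1 : (fun j => (pre p (4 ^ (slotT x + 2))).getD j 0) k = p k := pre_getD hk
  have h2 : cnt (fun j => (pre p (4 ^ (slotT x + 2))).getD j 0) (4 ^ (slotT x + 1)) k =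
      cnt p (4 ^ (slotT x + 1)) k := cnt_congr (fun j hj => pre_getD (lt_trans hj hk))
  unfold slotF
  rw [h2, h1]

theorem slotK_eq {p : ℕ → ℕ} {x k : ℕ} (h1 : 4 ^ (slotT x + 1) ≤ k) (h2 : k < 4 ^ (slotT x + 2))
    (h3 : p k = 1) (h4 : cnt p (4 ^ (slotT x + 1)) k = slotI x) : slotK p x = k := by
  have hk : slotF p x k = some k := by
    unfold slotF
    rw [decide_eq_false (not_lt.2 h1), h3, h4]
    simp
  obtain ⟨z, hz⟩ := fs_exists h2 hk
  unfold slotK
  rw [hz]
  obtain ⟨j, hj, hjz⟩ := fs_some hz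
  unfold slotF at hjz
  rw [Option.getD_some]
  rcases hb : ((!decide (j < 4 ^ (slotT x + 1))) && (p j == 1)) &&
    (cnt p (4 ^ (slotT x + 1)) j == slotI x) with _ | _
  · rw [hb] at hjz; exact absurd hjz (by simp)
  · rw [hb] at hjz
    have hjz' : j = z := Option.some.inj hjz
    subst hjz'
    simp only [Bool.and_eq_true, Bool.not_eq_true', decide_eq_false_iff_not, not_lt,
      beq_iff_eq] at hb
    exact cnt_inj hb.1.1 h1 hb.1.2 h3 (hb.2.trans h4.symm)

theorem four_mul_le (t : ℕ) : 4 * t ≤ 3 * 2 ^ t := by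
  induction t with
  | zero => norm_num
  | succ t ih =>
    rcases Nat.eq_zero_or_pos t with rfl | ht
    · norm_num
    · have h2 : 2 ^ (t + 1) = 2 ^ t + 2 ^ t := by ring
      have h3 : 2 ^ 1 ≤ 2 ^ t := Nat.pow_le_pow_right (by norm_num) ht
      omega

theorem slots_fit (t : ℕ) : 4 ^ t + 2 ^ (t + 2) * t ≤ 4 ^ (t + 1) := by
  have h1 : 2 ^ (t + 2) * t = 2 ^ t * (4 * t) := by ring
  have h2 : (4 : ℕ) ^ t = 2 ^ t * 2 ^ t := by rw [← mul_pow]; norm_num
  have h3 := Nat.mul_le_mul_left (2 ^ t) (four_mul_le t)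
  have h4 : 4 ^ (t + 1) = 4 * (2 ^ t * 2 ^ t) := by rw [pow_succ, h2]; ring
  rw [h1, h4, h2]
  have h5 : 2 ^ t * (3 * 2 ^ t) = 3 * (2 ^ t * 2 ^ t) := by ring
  omega

theorem alloc {O : Set (ℕ →. ℕ)} {p v : ℕ → ℕ} (hp : RecT O p) (hv : RecT O v) (t0 : ℕ)
    (hcnt : ∀ t, t0 ≤ t → cnt p (4 ^ (t + 1)) (4 ^ (t + 2)) ≤ 2 ^ (t + 2)) :
    ∃ y : ℕ → ℕ, RecT O y ∧ (∀ x, y x ≤ 1) ∧ ∀ a : ℕ → ℕ, (∀ x, a x ≤ 1) →
      (∀ n, ∃ t, n ≤ t ∧ ∃ k, 4 ^ (t + 1) ≤ k ∧ k < 4 ^ (t + 2) ∧ p k = 1 ∧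
        ∀ x < 2 ^ (4 ^ (t + 1)), v (Nat.pair k x) = a x) →
      ∀ n, ∃ b t, n ≤ t ∧ t ≤ b ∧ er y a (2 ^ b) * 2 ^ t ≤ 2 ^ b := by
  refine ⟨fun x => v (Nat.pair (slotK p x) x) % 2, ?_, ?_, ?_⟩
  · have h1 : Computable fun x : ℕ => x % 2 := cmod Computable.id (Computable.const 2)
    exact (Computable.recT h1).comp
      (hv.comp (RecT.pair (slotK_rec hp) (Computable.recT Computable.id)))
  · intro x
    exact Nat.lt_succ_iff.1 (Nat.mod_lt _ (by norm_num))
  · intro a ha hinf n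
    obtain ⟨t, ht, k, hk1, hk2, hpk, hvk⟩ := hinf (n + t0 + 1)
    have hi : cnt p (4 ^ (t + 1)) k < 2 ^ (t + 2) :=
      lt_of_lt_of_le (cnt_lt hk2 hk1 hpk) (hcnt t (by omega))
    set i := cnt p (4 ^ (t + 1)) k with hidef
    have hfit := slots_fit t
    have hit : (i + 1) * t ≤ 2 ^ (t + 2) * t := Nat.mul_le_mul_right t hi
    have hexp : (i + 1) * t = i * t + t := by ring
    have hagree : ∀ x, 2 ^ (4 ^ t + i * t) ≤ x → x < 2 ^ (4 ^ t + (i + 1) * t) →
        v (Nat.pair (slotK p x) x) % 2 = a x := by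
      intro x hx1 hx2
      have hx0 : x ≠ 0 := by
        have : 0 < 2 ^ (4 ^ t + i * t) := by positivity
        omega
      have hs1 : 4 ^ t + i * t ≤ Nat.log 2 x := Nat.le_log_of_pow_le (by norm_num) hx1
      have hs2 : Nat.log 2 x < 4 ^ t + (i + 1) * t := Nat.log_lt_of_lt_pow hx0 hx2
      have hT : slotT x = t := by
        unfold slotT
        refine (Nat.log_eq_iff (Or.inr ⟨by norm_num, ?_⟩)).2 ⟨by omega, by omega⟩
        have : 0 < 4 ^ t := by positivity
        omega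
      have hI : slotI x = i := by
        unfold slotI
        rw [hT]
        exact Nat.div_eq_of_lt_le (by omega) (by omega)
      have hK : slotK p x = k := by
        refine slotK_eq ?_ ?_ hpk ?_
        · rw [hT]; exact hk1
        · rw [hT]; exact hk2
        · rw [hT, hI]
      have hx3 : x < 2 ^ (4 ^ (t + 1)) :=
        lt_of_lt_of_le hx2 (Nat.pow_le_pow_right (by norm_num) (by omega))
      rw [hK, hvk x hx3]
      exact Nat.mod_eq_of_lt (Nat.lt_succ_of_le (ha x))
    refine ⟨4 ^ t + (i + 1) * t, t, by omega, by omega, ?_⟩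
    have hle : 2 ^ (4 ^ t + i * t) ≤ 2 ^ (4 ^ t + (i + 1) * t) :=
      Nat.pow_le_pow_right (by norm_num) (by omega)
    have h1 := er_const (f := fun x => v (Nat.pair (slotK p x) x) % 2) (g := a) hle hagree
    rw [h1]
    have h2 : 2 ^ (4 ^ t + (i + 1) * t) = 2 ^ (4 ^ t + i * t) * 2 ^ t := by
      rw [← pow_add]; congr 1; ring
    rw [h2]
    exact Nat.mul_le_mul_right _ (er_le _ _ _)

end Pool.Agent.H448R3
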