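import Pool.Agent.H448R3.Tools

set_option autoImplicit false

/-! A bipartite graph with computable adjacency and a computable bound on the neighbours has a
computable proper 4-colouring. -/

namespace Pool.Agent.H448R3

/-- running maximum of `b` below `n` -/
def rmax (b : ℕ → ℕ) (n : ℕ) : ℕ := Nat.rec (motive := fun _ => ℕ) 0 (fun k acc => max acc (b k)) n

theorem le_rmax {b : ℕ → ℕ} {k n : ℕ} (h : k < n) : b k ≤ rmax b n := by
  induction n with
  | zero => omega
  | succ n ih =>
    have e : rmax b (n + 1) = max (rmax b n) (b n) := rfl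
    rw [e]
    rcases Nat.lt_succ_iff_lt_or_eq.1 h with h' | rfl
    · exact le_trans (ih h') (le_max_left _ _)
    · exact le_max_right _ _

theorem rmax_comp {b : ℕ → ℕ} (hb : Computable b) : Computable (rmax b) := by
  have h3 : Computable₂ fun (_ : ℕ) (p : ℕ × ℕ) => max p.2 (b p.1) := by
    exact (Primrec.nat_max.to_comp.comp (Computable.snd.comp Computable.snd)
      (hb.comp (Computable.fst.comp Computable.snd))).to₂
  exact (Computable.nat_rec Computable.id (Computable.const 0) h3).of_eq fun a => rfl

/-- the boundaries of the layers -/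
def Mb (b : ℕ → ℕ) (s : ℕ) : ℕ :=
  Nat.rec (motive := fun _ => ℕ) 0 (fun _ m => max (m + 1) (rmax b m)) s

theorem Mb_succ (b : ℕ → ℕ) (s : ℕ) : Mb b (s + 1) = max (Mb b s + 1) (rmax b (Mb b s)) := rfl

theorem Mb_comp {b : ℕ → ℕ} (hb : Computable b) : Computable (Mb b) := by
  have h3 : Computable₂ fun (_ : ℕ) (p : ℕ × ℕ) => max (p.2 + 1) (rmax b p.2) := by
    have h1 : Computable fun p : ℕ × (ℕ × ℕ) => p.2.2 := Computable.snd.comp Computable.snd
    exact (Primrec.nat_max.to_comp.comp (Computable.succ.comp h1)
      ((rmax_comp hb).comp h1)).to₂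
  exact (Computable.nat_rec Computable.id (Computable.const 0) h3).of_eq fun a => rfl

theorem Mb_lt (b : ℕ → ℕ) (s : ℕ) : Mb b s < Mb b (s + 1) := by
  rw [Mb_succ]; exact lt_of_lt_of_le (Nat.lt_succ_self _) (le_max_left _ _)

theorem Mb_mono (b : ℕ → ℕ) {s t : ℕ} (h : s ≤ t) : Mb b s ≤ Mb b t :=
  (strictMono_nat_of_lt_succ (Mb_lt b)).monotone h

theorem le_Mb (b : ℕ → ℕ) (s : ℕ) : s ≤ Mb b s :=
  (strictMono_nat_of_lt_succ (Mb_lt b)).le_apply

/-- the layer containing a point exists -/
theorem ex_layer (b : ℕ → ℕ) (x : ℕ) : ∃ s, x < Mb b (s + 1) :=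
  ⟨x, lt_of_lt_of_le (Nat.lt_succ_self x) (le_Mb b (x + 1))⟩

variable (G : SimpleGraph ℕ)

theorem exists_colouring
    (hG : ComputablePred (fun p : ℕ × ℕ => G.Adj p.1 p.2))
    (b : ℕ → ℕ) (hb : Computable b) (hbd : ∀ x y, G.Adj x y → y < b x)
    (c2 : ℕ → Bool) (hc2 : ∀ x y, G.Adj x y → c2 x ≠ c2 y) :
    ∃ c : ℕ → ℕ, Computable c ∧ (∀ x, c x < 4) ∧ ∀ x y, G.Adj x y → c x ≠ c y := by
  classical
  obtain ⟨adj, hadjc, hadj⟩ : ∃ adj : ℕ → ℕ → Bool, Computable₂ adj ∧
      ∀ x y, adj x y = true ↔ G.Adj x y := by
    obtain ⟨inst, h⟩ := hG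
    refine ⟨fun x y => decide (G.Adj x y), ?_, fun x y => by simp⟩
    refine h.of_eq ?_
    intro p
    exact (decide_eq_decide.2 Iff.rfl)
  -- layer index
  obtain ⟨ly, hlyc, hly⟩ : ∃ ly : ℕ → ℕ, Computable ly ∧ ∀ x, x < Mb b (ly x + 1) ∧
      ∀ s, s < ly x → ¬ x < Mb b (s + 1) := by
    have hP : ComputablePred (fun p : ℕ × ℕ => decide (p.1 < Mb b (p.2 + 1)) = true) :=
      Computable.computablePred (by
        have h1 : Computable fun p : ℕ × ℕ => decide (p.1 < Mb b (p.2 + 1)) :=
          clt Computable.fst ((Mb_comp hb).comp (Computable.succ.comp Computable.snd))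
        simpa using h1)
    have hex : ∀ x, ∃ s, decide (x < Mb b (s + 1)) = true := fun x => by
      obtain ⟨s, hs⟩ := ex_layer b x
      exact ⟨s, decide_eq_true hs⟩
    refine ⟨_, Computable.find (P := fun a n => decide (a < Mb b (n + 1)) = true) hP hex,
      fun x => ⟨of_decide_eq_true (Nat.find_spec (hex x)), fun s hs h => ?_⟩⟩
    exact Nat.find_min (hex x) hs (decide_eq_true h)
  have hlow : ∀ x, Mb b (ly x) ≤ x := by
    intro x
    rcases Nat.eq_zero_or_pos (ly x) with h | h
    · rw [h]; exact Nat.zero_le _
    · have := (hly x).2 (ly x - 1) (by omega)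
      rw [Nat.sub_add_cancel h] at this
      exact not_lt.1 this
  -- colouring of a layer
  let good : ℕ → ℕ → Bool := fun s m =>
    ball (Mb b (s + 1)) fun x => ball (Mb b (s + 1)) fun y =>
      (!(adj x y)) || !(((Encodable.decode (α := List Bool) m).getD []).getD x false ==
        ((Encodable.decode (α := List Bool) m).getD []).getD y false)
  have hgood : Computable₂ good := by
    have hM : Computable fun p : ℕ × ℕ => Mb b (p.1 + 1) :=
      (Mb_comp hb).comp (Computable.succ.comp Computable.fst)
    have hL : Computable fun p : ℕ × ℕ => (Encodable.decode (α := List Bool) p.2).getD [] :=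
      Computable.option_getD (Computable.decode.comp Computable.snd) (Computable.const [])
    have hin : Computable₂ fun (p : (ℕ × ℕ) × ℕ) (y : ℕ) =>
        ((!(adj p.2 y)) || !(((Encodable.decode (α := List Bool) p.1.2).getD []).getD p.2 false ==
        ((Encodable.decode (α := List Bool) p.1.2).getD []).getD y false)) := by
      have a1 : Computable fun q : ((ℕ × ℕ) × ℕ) × ℕ => adj q.1.2 q.2 :=
        hadjc.comp (Computable.snd.comp Computable.fst) Computable.snd
      have a2 : Computable fun q : ((ℕ × ℕ) × ℕ) × ℕ =>
          (Encodable.decode (α := List Bool) q.1.1.2).getD [] :=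
        hL.comp (Computable.fst.comp Computable.fst)
      have a3 : Computable fun q : ((ℕ × ℕ) × ℕ) × ℕ =>
          ((Encodable.decode (α := List Bool) q.1.1.2).getD []).getD q.1.2 false :=
        (Primrec.list_getD false).to_comp.comp a2 (Computable.snd.comp Computable.fst)
      have a4 : Computable fun q : ((ℕ × ℕ) × ℕ) × ℕ =>
          ((Encodable.decode (α := List Bool) q.1.1.2).getD []).getD q.2 false :=
        (Primrec.list_getD false).to_comp.comp a2 Computable.snd
      exact cor (cnot a1) (cnot (cbeqB a3 a4))
    have hmid : Computable₂ fun (p : ℕ × ℕ) (x : ℕ) => ball (Mb b (p.1 + 1)) fun y =>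
        ((!(adj x y)) || !(((Encodable.decode (α := List Bool) p.2).getD []).getD x false ==
        ((Encodable.decode (α := List Bool) p.2).getD []).getD y false)) :=
      ball_comp (hM.comp Computable.fst) hin
    exact ball_comp hM hmid
  have hgex : ∀ s, ∃ m, good s m = true := by
    intro s
    refine ⟨Encodable.encode ((List.range (Mb b (s + 1))).map c2), ?_⟩
    simp only [good, ball_iff, Encodable.encodek, Option.getD_some]
    intro x hx y hy
    have e1 : ((List.range (Mb b (s + 1))).map c2).getD x false = c2 x := by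
      rw [List.getD_eq_getElem?_getD]; simp [hx]
    have e2 : ((List.range (Mb b (s + 1))).map c2).getD y false = c2 y := by
      rw [List.getD_eq_getElem?_getD]; simp [hy]
    rw [e1, e2]
    by_cases h : G.Adj x y
    · have := hc2 x y h
      simp [this]
    · have h' : adj x y = false := by
        rw [← Bool.not_eq_true, hadj]; exact h
      simp [h']
  obtain ⟨F, hF, hFs⟩ := search hgood hgex
  let col : ℕ → Bool := fun x =>
    ((Encodable.decode (α := List Bool) (F (ly x))).getD []).getD x false
  have hcol : Computable col := by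
    have hL : Computable fun x : ℕ => (Encodable.decode (α := List Bool) (F (ly x))).getD [] :=
      Computable.option_getD (Computable.decode.comp (hF.comp hlyc)) (Computable.const [])
    exact (Primrec.list_getD false).to_comp.comp hL Computable.id
  refine ⟨fun x => (ly x % 2) * 2 + (bif col x then 1 else 0), ?_, ?_, ?_⟩
  · have h1 : Computable fun x => ly x % 2 := Primrec.nat_mod.to_comp.comp hlyc (Computable.const 2)
    have h2 : Computable fun x => (bif col x then 1 else 0 : ℕ) :=
      Computable.cond hcol (Computable.const 1) (Computable.const 0)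
    exact Primrec.nat_add.to_comp.comp (Primrec.nat_mul.to_comp.comp h1 (Computable.const 2)) h2
  · intro x
    have h1 : ly x % 2 < 2 := Nat.mod_lt _ (by norm_num)
    have h2 : (bif col x then 1 else 0 : ℕ) ≤ 1 := by cases col x <;> simp
    simp only
    omega
  · intro x y hxy heq
    simp only at heq
    have h1 : (bif col x then 1 else 0 : ℕ) ≤ 1 := by cases col x <;> simp
    have h2 : (bif col y then 1 else 0 : ℕ) ≤ 1 := by cases col y <;> simp
    have hpar : ly x % 2 = ly y % 2 := by omega
    have hcc : (bif col x then 1 else 0 : ℕ) = (bif col y then 1 else 0 : ℕ) := by omega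
    have hcol' : col x = col y := by
      cases hx : col x <;> cases hy : col y <;> rw [hx, hy] at hcc <;> simp at hcc ⊢
    -- layers differ by at most one
    have key : ∀ u v, G.Adj u v → ly v ≤ ly u + 1 := by
      intro u v huv
      by_contra hcon
      push Not at hcon
      have h3 := (hly v).2 (ly u + 1) hcon
      apply h3
      have h4 : v < b u := hbd u v huv
      have h5 : b u ≤ rmax b (Mb b (ly u + 1)) := le_rmax (hly u).1
      have h6 : rmax b (Mb b (ly u + 1)) ≤ Mb b (ly u + 1 + 1) := by
        rw [Mb_succ b (ly u + 1)]; exact le_max_right _ _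
      omega
    have k1 := key x y hxy
    have k2 := key y x hxy.symm
    have hl : ly x = ly y := by omega
    have hg := hFs (ly x)
    simp only [good, ball_iff] at hg
    have h3 := hg x (hly x).1 y (by rw [hl]; exact (hly y).1)
    have h4 : adj x y = true := (hadj x y).2 hxy
    rw [h4] at h3
    simp only [Bool.not_true, Bool.false_or, Bool.not_eq_true'] at h3
    have h5 : col x = ((Encodable.decode (α := List Bool) (F (ly x))).getD []).getD x false := rfl
    have h6 : col y = ((Encodable.decode (α := List Bool) (F (ly x))).getD []).getD y false := by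
      show ((Encodable.decode (α := List Bool) (F (ly y))).getD []).getD y false = _
      rw [hl]
    rw [← h5, ← h6, hcol'] at h3
    simp at h3

end Pool.Agent.H448R3
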