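import Pool.Agent.H448R3.Dich

set_option autoImplicit false

/-! Decoding. -/

namespace Pool.Agent.H448R3

open Helper743

theorem er_shift (f g : ℕ → ℕ) (a m : ℕ) :
    er f g (a + m) = er f g a + er (fun j => f (a + j)) (fun j => g (a + j)) m := by
  induction m with
  | zero => rfl
  | succ m ih =>
    rw [← Nat.add_assoc, er_succ, er_succ, ih, Nat.add_assoc]

/-- test whether the message `m` fits at level `k` -/
def decF (cw : ℕ → ℕ → List Bool) (y : ℕ → ℕ) (k m : ℕ) : Option ℕ :=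
  bif !decide (16 * 2 ^ k < er (fun j => y (16 * 2 ^ k + j)) (tf (cw k m)) (16 * 2 ^ k) * 32)
    then some m else none

/-- the decoded message -/
def decK (cw : ℕ → ℕ → List Bool) (y : ℕ → ℕ) (k : ℕ) : ℕ :=
  (fs (decF cw y k) (2 ^ (8 * 2 ^ k))).getD 0

theorem decK_rec {O : Set (ℕ →. ℕ)} {cw : ℕ → ℕ → List Bool} (hcw : Computable₂ cw) {y : ℕ → ℕ}
    (hy : RecT O y) : RecT O (decK cw y) := by
  have hN : Computable fun k : ℕ => 16 * 2 ^ k := cmul (Computable.const 16) pow2_comp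
  have hΦ : Computable₂ fun (σ : List ℕ) (k : ℕ) => decK cw (fun j => σ.getD j 0) k := by
    have c1 : Computable fun r : (List ℕ × ℕ) × ℕ => r.1.2 := Computable.snd.comp Computable.fst
    have a1 : Computable₂ fun (r : (List ℕ × ℕ) × ℕ) (j : ℕ) =>
        r.1.1.getD (16 * 2 ^ r.1.2 + j) 0 :=
      (Primrec.list_getD 0).to_comp.comp (Computable.fst.comp (Computable.fst.comp Computable.fst))
        (cadd (hN.comp (c1.comp Computable.fst)) Computable.snd)
    have a2 : Computable₂ fun (r : (List ℕ × ℕ) × ℕ) (j : ℕ) => tf (cw r.1.2 r.2) j :=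
      tf_comp (hcw.comp (c1.comp Computable.fst) (Computable.snd.comp Computable.fst))
        Computable.snd
    have a3 : Computable₂ fun (r : List ℕ × ℕ) (m : ℕ) => decF cw (fun j => r.1.getD j 0) r.2 m :=
      Computable.cond (cnot (clt (hN.comp c1)
        (cmul (er_comp a1 a2 (hN.comp c1)) (Computable.const 32))))
        (Computable.option_some.comp Computable.snd) (Computable.const none)
    exact Computable.option_getD (fs_comp a3
      (pow2_comp.comp (cmul (Computable.const 8) (pow2_comp.comp Computable.snd))))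
      (Computable.const 0)
  have hu : Computable fun k : ℕ => 32 * 2 ^ k := cmul (Computable.const 32) pow2_comp
  refine (tr_pre hy hu hΦ).of_eq ?_
  intro k
  congr 1
  show (fs (decF cw (fun j => (pre y (32 * 2 ^ k)).getD j 0) k) (2 ^ (8 * 2 ^ k))).getD 0 =
    (fs (decF cw y k) (2 ^ (8 * 2 ^ k))).getD 0
  congr 2
  funext m
  unfold decF
  have h1 : er (fun j => (fun j => (pre y (32 * 2 ^ k)).getD j 0) (16 * 2 ^ k + j)) (tf (cw k m))
      (16 * 2 ^ k) = er (fun j => y (16 * 2 ^ k + j)) (tf (cw k m)) (16 * 2 ^ k) := by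
    refine er_congr (fun j hj => ?_) (fun _ _ => rfl)
    exact pre_getD (by omega)
  rw [h1]

theorem ioe {cw : ℕ → ℕ → List Bool} (hcw : Computable₂ cw)
    (hcode : ∀ k m m', m < 2 ^ (8 * 2 ^ k) → m' < 2 ^ (8 * 2 ^ k) → m ≠ m' →
      2 ^ k < er (tf (cw k m)) (tf (cw k m')) (16 * 2 ^ k))
    {y : ℕ → ℕ} (hy : ∀ D : ℕ → ℕ, Computable D → (∀ j, D j ≤ 1) → ∀ n, ∃ m, n ≤ m ∧
      er y D m * 128 < m)
    (W : ℕ → ℕ) (hW : Computable W) (hW1 : ∀ j, W j ≤ 1) (n : ℕ) :
    ∃ k, n ≤ k ∧ decK cw y k = val W (2 ^ (k + 3)) := by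
  let D : ℕ → ℕ := fun x => tf (cw (Nat.log 2 x - 4) (val W (2 ^ (Nat.log 2 x - 4 + 3))))
    (x - 2 ^ (Nat.log 2 x))
  have hD : Computable D := by
    have h1 : Computable fun x : ℕ => Nat.log 2 x - 4 := csub log2_comp (Computable.const 4)
    have h2 : Computable₂ fun (_ : ℕ) (j : ℕ) => W j := hW.comp Computable.snd
    exact tf_comp (hcw.comp h1 (val_comp h2 (pow2_comp.comp (cadd h1 (Computable.const 3)))))
      (csub Computable.id (pow2_comp.comp log2_comp))
  have hD1 : ∀ j, D j ≤ 1 := by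
    intro j
    show tf _ _ ≤ 1
    unfold tf bit
    cases (List.getD _ _ false) <;> simp
  obtain ⟨m, hm, herr⟩ := hy D hD hD1 (2 ^ (n + 5))
  have hm0 : m ≠ 0 := by
    have : 0 < 2 ^ (n + 5) := by positivity
    omega
  have hlog1 : n + 5 ≤ Nat.log 2 m := Nat.le_log_of_pow_le (by norm_num) hm
  obtain ⟨k, hk⟩ : ∃ k, Nat.log 2 m = k + 5 := ⟨Nat.log 2 m - 5, by omega⟩
  have hm1 : 2 ^ (k + 5) ≤ m := by rw [← hk]; exact Nat.pow_log_le_self 2 hm0
  have hm2 : m < 2 ^ (k + 5 + 1) := by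
    have := Nat.lt_pow_succ_log_self (b := 2) (by norm_num) m
    rw [hk] at this
    exact this
  refine ⟨k, by omega, ?_⟩
  have e5 : 2 ^ (k + 5) = 16 * 2 ^ k + 16 * 2 ^ k := by ring
  have e6 : 2 ^ (k + 5 + 1) = 64 * 2 ^ k := by ring
  have e4 : 2 ^ (k + 4) = 16 * 2 ^ k := by ring
  have e3 : 2 ^ (k + 3) = 8 * 2 ^ k := by ring
  have hpos : 0 < 2 ^ k := by positivity
  have h1 : er y D (16 * 2 ^ k + 16 * 2 ^ k) ≤ er y D m := er_mono _ _ (by omega)
  rw [er_shift] at h1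
  have h2 : er (fun j => y (16 * 2 ^ k + j)) (fun j => D (16 * 2 ^ k + j)) (16 * 2 ^ k) =
      er (fun j => y (16 * 2 ^ k + j)) (tf (cw k (val W (2 ^ (k + 3))))) (16 * 2 ^ k) := by
    refine er_congr (fun _ _ => rfl) (fun j hj => ?_)
    have hl : Nat.log 2 (16 * 2 ^ k + j) = k + 4 := by
      refine (Nat.log_eq_iff (Or.inl (by omega))).2 ⟨by omega, ?_⟩
      have : 2 ^ (k + 4 + 1) = 2 ^ (k + 5) := rfl
      omega
    show tf (cw (Nat.log 2 (16 * 2 ^ k + j) - 4)
      (val W (2 ^ (Nat.log 2 (16 * 2 ^ k + j) - 4 + 3))))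
      ((16 * 2 ^ k + j) - 2 ^ (Nat.log 2 (16 * 2 ^ k + j))) = _
    rw [hl, e4]
    have h3 : k + 4 - 4 = k := by omega
    have h4 : 16 * 2 ^ k + j - 16 * 2 ^ k = j := by omega
    rw [h3, h4]
  rw [h2] at h1
  have hv : val W (2 ^ (k + 3)) < 2 ^ (8 * 2 ^ k) := by
    have := val_lt hW1 (2 ^ (k + 3))
    rwa [e3] at this ⊢
  generalize val W (2 ^ (k + 3)) = m0 at h1 hv
  have hfit : ¬ (16 * 2 ^ k < er (fun j => y (16 * 2 ^ k + j)) (tf (cw k m0)) (16 * 2 ^ k) * 32) := by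
    omega
  have hdec : decF cw y k m0 = some m0 := by
    unfold decF
    rw [decide_eq_false hfit]; rfl
  obtain ⟨z, hz⟩ := fs_exists hv hdec
  unfold decK
  rw [hz, Option.getD_some]
  obtain ⟨j, hj, hjz⟩ := fs_some hz
  unfold decF at hjz
  by_cases hfit' : 16 * 2 ^ k < er (fun j => y (16 * 2 ^ k + j)) (tf (cw k j)) (16 * 2 ^ k) * 32
  · rw [decide_eq_true hfit'] at hjz
    exact absurd hjz (by simp)
  · rw [decide_eq_false hfit'] at hjz
    have hjz' : j = z := Option.some.inj hjz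
    subst hjz'
    by_contra hne
    have h5 := hcode k j m0 hj hv hne
    have h6 := er_triangle (tf (cw k j)) (fun j => y (16 * 2 ^ k + j)) (tf (cw k m0)) (16 * 2 ^ k)
    rw [er_comm (tf (cw k j)) (fun j => y (16 * 2 ^ k + j))] at h6
    omega

end Pool.Agent.H448R3
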