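import Pool.Agent.H448R3.Alloc

set_option autoImplicit false

/-! The dichotomy. -/

namespace Pool.Agent.H448R3

open Helper743

theorem cnt_card (p : ℕ → ℕ) (a k : ℕ) :
    cnt p a k = ((Finset.Ico a k).filter fun j => p j = 1).card := by
  induction k with
  | zero => simp [cnt]
  | succ k ih =>
    rw [cnt_succ, ih]
    by_cases h : a ≤ k
    · rw [← Finset.insert_Ico_right_eq_Ico_add_one h, Finset.filter_insert]
      by_cases hp : p k = 1
      · rw [if_pos ⟨h, hp⟩, if_pos hp, Finset.card_insert_of_notMem]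
        simp
      · rw [if_neg (fun hh => hp hh.2), if_neg hp]; rfl
    · rw [if_neg (fun hh => h hh.1), Finset.Ico_eq_empty (by omega), Finset.Ico_eq_empty (by omega)]
      simp

/-- similarity of two levels -/
def simb (F : ℕ → ℕ) (t k k' : ℕ) : Bool :=
  ball (2 ^ (4 ^ (t + 1))) fun x => (bt (F k) (2 * x) == bt (F k') (2 * x))

theorem simb_iff (F : ℕ → ℕ) (t k k' : ℕ) : simb F t k k' = true ↔
    ∀ x < 2 ^ (4 ^ (t + 1)), bt (F k) (2 * x) = bt (F k') (2 * x) := by
  unfold simb
  rw [ball_iff]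
  simp only [beq_iff_eq]

theorem simb_congr {F F' : ℕ → ℕ} {t k k' : ℕ} (h : F k = F' k) (h' : F k' = F' k') :
    simb F t k k' = simb F' t k k' := by
  unfold simb
  rw [h, h']

/-- class size -/
def cls (F : ℕ → ℕ) (t k : ℕ) : ℕ :=
  cnt (fun k' => bif simb F t k k' then 1 else 0) (4 ^ (t + 1)) (4 ^ (t + 2))

/-- heavy leaders -/
def hl (F : ℕ → ℕ) (k : ℕ) : ℕ :=
  bif (!decide (cls F (Nat.log 4 k - 1) k < 2 ^ (Nat.log 4 k - 1 + 2))) &&
    ball k (fun k' => decide (k' < 4 ^ (Nat.log 4 k - 1 + 1)) || !(simb F (Nat.log 4 k - 1) k k'))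
    then 1 else 0

theorem hl_comp : Computable₂ fun (σ : List ℕ) (k : ℕ) => hl (fun j => σ.getD j 0) k := by
  have hT : Computable fun k : ℕ => Nat.log 4 k - 1 := csub log4_comp (Computable.const 1)
  have hsim : Computable₂ fun (q : List ℕ × ℕ) (k' : ℕ) =>
      simb (fun j => q.1.getD j 0) (Nat.log 4 q.2 - 1) q.2 k' := by
    have a1 : Computable fun r : ((List ℕ × ℕ) × ℕ) × ℕ =>
        bt (r.1.1.1.getD r.1.1.2 0) (2 * r.2) :=
      bt_comp ((Primrec.list_getD 0).to_comp.comp
        (Computable.fst.comp (Computable.fst.comp Computable.fst))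
        (Computable.snd.comp (Computable.fst.comp Computable.fst)))
        (cmul (Computable.const 2) Computable.snd)
    have a2 : Computable fun r : ((List ℕ × ℕ) × ℕ) × ℕ =>
        bt (r.1.1.1.getD r.1.2 0) (2 * r.2) :=
      bt_comp ((Primrec.list_getD 0).to_comp.comp
        (Computable.fst.comp (Computable.fst.comp Computable.fst))
        (Computable.snd.comp Computable.fst))
        (cmul (Computable.const 2) Computable.snd)
    have a3 : Computable fun r : (List ℕ × ℕ) × ℕ => 2 ^ (4 ^ (Nat.log 4 r.1.2 - 1 + 1)) :=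
      pow2_comp.comp (pow4_comp.comp (cadd (hT.comp (Computable.snd.comp Computable.fst))
        (Computable.const 1)))
    exact ball_comp a3 (cbeqN a1 a2).to₂
  have h4 : Computable fun q : List ℕ × ℕ => 4 ^ (Nat.log 4 q.2 - 1 + 1) :=
    pow4_comp.comp (cadd (hT.comp Computable.snd) (Computable.const 1))
  have h5 : Computable fun q : List ℕ × ℕ => 4 ^ (Nat.log 4 q.2 - 1 + 2) :=
    pow4_comp.comp (cadd (hT.comp Computable.snd) (Computable.const 2))
  have hcls : Computable fun q : List ℕ × ℕ =>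
      cls (fun j => q.1.getD j 0) (Nat.log 4 q.2 - 1) q.2 :=
    cnt_comp (Computable.cond hsim (Computable.const 1) (Computable.const 0)).to₂ h4 h5
  have h6 : Computable₂ fun (q : List ℕ × ℕ) (k' : ℕ) => (decide (k' < 4 ^ (Nat.log 4 q.2 - 1 + 1))
      || !(simb (fun j => q.1.getD j 0) (Nat.log 4 q.2 - 1) q.2 k')) :=
    cor (clt Computable.snd (h4.comp Computable.fst)) (cnot hsim)
  exact Computable.cond (cand (cnot (clt hcls
    (pow2_comp.comp (cadd (hT.comp Computable.snd) (Computable.const 2)))))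
    (ball_comp Computable.snd h6)) (Computable.const 1) (Computable.const 0)

theorem ball_congr {n : ℕ} {q q' : ℕ → Bool} (h : ∀ j < n, q j = q' j) : ball n q = ball n q' := by
  rw [Bool.eq_iff_iff, ball_iff, ball_iff]
  exact ⟨fun hh j hj => (h j hj) ▸ hh j hj, fun hh j hj => (h j hj).symm ▸ hh j hj⟩

theorem lt_use (k : ℕ) : k < 4 ^ (Nat.log 4 k - 1 + 2) := by
  refine lt_of_lt_of_le (Nat.lt_pow_succ_log_self (b := 4) (by norm_num) k) ?_
  exact Nat.pow_le_pow_right (by norm_num) (by omega)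

theorem hl_rec {O : Set (ℕ →. ℕ)} {F : ℕ → ℕ} (hF : RecT O F) : RecT O (hl F) := by
  have hu : Computable fun k : ℕ => 4 ^ (Nat.log 4 k - 1 + 2) :=
    pow4_comp.comp (cadd (csub log4_comp (Computable.const 1)) (Computable.const 2))
  refine (tr_pre hF hu hl_comp).of_eq ?_
  intro k
  congr 1
  have hk := lt_use k
  set F' : ℕ → ℕ := fun j => (pre F (4 ^ (Nat.log 4 k - 1 + 2))).getD j 0 with hF'
  have hag : ∀ j < 4 ^ (Nat.log 4 k - 1 + 2), F' j = F j := fun j hj => pre_getD hj
  have e1 : cls F' (Nat.log 4 k - 1) k = cls F (Nat.log 4 k - 1) k := by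
    unfold cls
    refine cnt_congr ?_
    intro j hj
    rw [simb_congr (hag k hk) (hag j hj)]
  have e2 : ball k (fun k' => decide (k' < 4 ^ (Nat.log 4 k - 1 + 1)) ||
      !(simb F' (Nat.log 4 k - 1) k k')) = ball k (fun k' =>
      decide (k' < 4 ^ (Nat.log 4 k - 1 + 1)) || !(simb F (Nat.log 4 k - 1) k k')) := by
    refine ball_congr ?_
    intro j hj
    rw [simb_congr (hag k hk) (hag j (lt_trans hj hk))]
  show hl F' k = hl F k
  unfold hl
  rw [e1, e2]

theorem log_lev {t k : ℕ} (h1 : 4 ^ (t + 1) ≤ k) (h2 : k < 4 ^ (t + 2)) : Nat.log 4 k - 1 = t := by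
  have h3 : Nat.log 4 k = t + 1 := by
    refine (Nat.log_eq_iff (Or.inl (by omega))).2 ⟨h1, h2⟩
  omega

theorem hl_iff {F : ℕ → ℕ} {t k : ℕ} (h1 : 4 ^ (t + 1) ≤ k) (h2 : k < 4 ^ (t + 2)) :
    hl F k = 1 ↔ 2 ^ (t + 2) ≤ cls F t k ∧
      ∀ k', 4 ^ (t + 1) ≤ k' → k' < k → simb F t k k' ≠ true := by
  unfold hl
  rw [log_lev h1 h2]
  rcases hb : (!decide (cls F t k < 2 ^ (t + 2))) &&
    ball k (fun k' => decide (k' < 4 ^ (t + 1)) || !(simb F t k k')) with _ | _
  · simp only [cond_false]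
    constructor
    · intro h; exact absurd h (by norm_num)
    · rintro ⟨ha, hc⟩
      exfalso
      have : ((!decide (cls F t k < 2 ^ (t + 2))) &&
        ball k (fun k' => decide (k' < 4 ^ (t + 1)) || !(simb F t k k'))) = true := by
        rw [Bool.and_eq_true, Bool.not_eq_true', decide_eq_false_iff_not, ball_iff]
        refine ⟨not_lt.2 ha, fun k' hk' => ?_⟩
        rw [Bool.or_eq_true, decide_eq_true_eq]
        by_cases h4 : k' < 4 ^ (t + 1)
        · exact Or.inl h4
        · right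
          have := hc k' (not_lt.1 h4) hk'
          simpa using this
      rw [this] at hb
      exact absurd hb (by simp)
  · simp only [cond_true, true_iff]
    rw [Bool.and_eq_true, Bool.not_eq_true', decide_eq_false_iff_not, ball_iff] at hb
    refine ⟨not_lt.1 hb.1, fun k' h4 hk' hs => ?_⟩
    have := hb.2 k' hk'
    rw [Bool.or_eq_true, decide_eq_true_eq, hs] at this
    rcases this with h | h
    · omega
    · exact absurd h (by simp)

theorem hl_count (F : ℕ → ℕ) (t : ℕ) : cnt (hl F) (4 ^ (t + 1)) (4 ^ (t + 2)) ≤ 2 ^ (t + 2) := by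
  rw [cnt_card]
  set L := (Finset.Ico (4 ^ (t + 1)) (4 ^ (t + 2))).filter fun j => hl F j = 1 with hL
  let C : ℕ → Finset ℕ := fun l =>
    (Finset.Ico (4 ^ (t + 1)) (4 ^ (t + 2))).filter fun j => simb F t l j = true
  have hC : ∀ l ∈ L, 2 ^ (t + 2) ≤ (C l).card := by
    intro l hl'
    rw [hL, Finset.mem_filter, Finset.mem_Ico] at hl'
    have h1 := ((hl_iff hl'.1.1 hl'.1.2).1 hl'.2).1
    unfold cls at h1
    rw [cnt_card] at h1
    refine le_trans h1 (Finset.card_le_card ?_)
    intro j hj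
    rw [Finset.mem_filter] at hj ⊢
    refine ⟨hj.1, ?_⟩
    rcases hb : simb F t l j with _ | _
    · rw [hb] at hj; exact absurd hj.2 (by simp)
    · rfl
  have hdis : ∀ l ∈ L, ∀ l' ∈ L, l ≠ l' → Disjoint (C l) (C l') := by
    have key : ∀ l ∈ L, ∀ l' ∈ L, l < l' → Disjoint (C l) (C l') := by
      intro l hl1 l' hl2 hlt
      rw [hL, Finset.mem_filter, Finset.mem_Ico] at hl1 hl2
      rw [Finset.disjoint_left]
      intro j hj hj'
      have h1 := (simb_iff _ _ _ _).1 (Finset.mem_filter.1 hj).2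
      have h2 := (simb_iff _ _ _ _).1 (Finset.mem_filter.1 hj').2
      refine ((hl_iff hl2.1.1 hl2.1.2).1 hl2.2).2 l hl1.1.1 hlt ?_
      rw [simb_iff]
      intro x hx
      rw [h1 x hx, h2 x hx]
    intro l hl1 l' hl2 hne
    rcases lt_or_gt_of_ne hne with h | h
    · exact key l hl1 l' hl2 h
    · exact (key l' hl2 l hl1 h).symm
  have h1 : (L.biUnion C).card = ∑ l ∈ L, (C l).card := Finset.card_biUnion hdis
  have h2 : L.card * 2 ^ (t + 2) ≤ ∑ l ∈ L, (C l).card := by
    have := Finset.card_nsmul_le_sum L (fun l => (C l).card) (2 ^ (t + 2)) hC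
    simpa using this
  have h3 : (L.biUnion C).card ≤ 4 ^ (t + 2) - 4 ^ (t + 1) := by
    rw [← Nat.card_Ico]
    refine Finset.card_le_card ?_
    intro j hj
    obtain ⟨l, _, hj'⟩ := Finset.mem_biUnion.1 hj
    exact (Finset.mem_filter.1 hj').1
  have h4 : 4 ^ (t + 2) - 4 ^ (t + 1) ≤ 2 ^ (t + 2) * 2 ^ (t + 2) := by
    rw [← mul_pow]
    norm_num
  have h5 : L.card * 2 ^ (t + 2) ≤ 2 ^ (t + 2) * 2 ^ (t + 2) := by omega
  exact Nat.le_of_mul_le_mul_right h5 (by positivity)

/-- agreement with `A` on the even bits -/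
def agrb (A : ℕ → ℕ) (F : ℕ → ℕ) (k : ℕ) : ℕ :=
  bif ball (2 ^ (k + 2)) (fun j => (bt (F k) (2 * j) == A j)) then 1 else 0

theorem agrb_iff (A F : ℕ → ℕ) (k : ℕ) :
    agrb A F k = 1 ↔ ∀ j < 2 ^ (k + 2), bt (F k) (2 * j) = A j := by
  unfold agrb
  rcases hb : ball (2 ^ (k + 2)) (fun j => (bt (F k) (2 * j) == A j)) with _ | _
  · simp only [cond_false]
    rw [← Bool.not_eq_true, ball_iff] at hb
    constructor
    · intro h; exact absurd h (by norm_num)
    · intro h
      exact absurd (fun j hj => by rw [beq_iff_eq]; exact h j hj) hb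
  · simp only [cond_true, true_iff]
    rw [ball_iff] at hb
    intro j hj
    have := hb j hj
    rwa [beq_iff_eq] at this

theorem agrb_rec {O : Set (ℕ →. ℕ)} {A F : ℕ → ℕ} (hA : Computable A) (hF : RecT O F) :
    RecT O (agrb A F) := by
  have h1 : Computable fun z : ℕ => (bif ball (2 ^ (z.unpair.2 + 2))
      (fun j => (bt z.unpair.1 (2 * j) == A j)) then 1 else 0 : ℕ) := by
    have u1 : Computable fun z : ℕ => z.unpair.1 := Computable.fst.comp Computable.unpair
    have u2 : Computable fun z : ℕ => z.unpair.2 := Computable.snd.comp Computable.unpair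
    have a1 : Computable₂ fun (z j : ℕ) => (bt z.unpair.1 (2 * j) == A j) :=
      cbeqN (bt_comp (u1.comp Computable.fst) (cmul (Computable.const 2) Computable.snd))
        (hA.comp Computable.snd)
    exact Computable.cond (ball_comp (pow2_comp.comp (cadd u2 (Computable.const 2))) a1)
      (Computable.const 1) (Computable.const 0)
  have h2 := (Computable.recT (O := O) h1).comp (RecT.pair hF (Computable.recT Computable.id))
  refine h2.of_eq ?_
  intro k
  simp only [Nat.unpair_pair, id]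
  rfl

/-- the join of two sequences -/
def jn (A B : ℕ → ℕ) (j : ℕ) : ℕ := bif (j % 2 == 0) then A (j / 2) else B (j / 2)

theorem jn_even (A B : ℕ → ℕ) (j : ℕ) : jn A B (2 * j) = A j := by
  unfold jn
  have h1 : 2 * j % 2 = 0 := by omega
  have h2 : 2 * j / 2 = j := by omega
  rw [h1, h2]; rfl

theorem jn_odd (A B : ℕ → ℕ) (j : ℕ) : jn A B (2 * j + 1) = B j := by
  unfold jn
  have h1 : (2 * j + 1) % 2 = 1 := by omega
  have h2 : (2 * j + 1) / 2 = j := by omega
  rw [h1, h2]; rfl

theorem jn_comp {A B : ℕ → ℕ} (hA : Computable A) (hB : Computable B) : Computable (jn A B) := by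
  have h1 : Computable fun j : ℕ => j / 2 := cdiv Computable.id (Computable.const 2)
  exact Computable.cond (cbeqN (cmod Computable.id (Computable.const 2)) (Computable.const 0))
    (hA.comp h1) (hB.comp h1)

theorem jn_le {A B : ℕ → ℕ} (hA : ∀ j, A j ≤ 1) (hB : ∀ j, B j ≤ 1) (j : ℕ) : jn A B j ≤ 1 := by
  unfold jn
  cases (j % 2 == 0) with
  | true => exact hA _
  | false => exact hB _

theorem dich {O : Set (ℕ →. ℕ)} {F : ℕ → ℕ} (hF : RecT O F)
    (hioe : ∀ W : ℕ → ℕ, Computable W → (∀ j, W j ≤ 1) → ∀ n, ∃ k, n ≤ k ∧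
      F k = val W (2 ^ (k + 3))) :
    ∃ p v : ℕ → ℕ, RecT O p ∧ RecT O v ∧
      (∃ t0, ∀ t, t0 ≤ t → cnt p (4 ^ (t + 1)) (4 ^ (t + 2)) ≤ 2 ^ (t + 2)) ∧
      ∀ A : ℕ → ℕ, Computable A → (∀ x, A x ≤ 1) →
        ∀ n, ∃ t, n ≤ t ∧ ∃ k, 4 ^ (t + 1) ≤ k ∧ k < 4 ^ (t + 2) ∧ p k = 1 ∧
          ∀ x < 2 ^ (4 ^ (t + 1)), v (Nat.pair k x) = A x := by
  have u1 : Computable fun z : ℕ => z.unpair.1 := Computable.fst.comp Computable.unpair
  have u2 : Computable fun z : ℕ => z.unpair.2 := Computable.snd.comp Computable.unpair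
  by_cases hcase : ∀ A : ℕ → ℕ, Computable A → (∀ x, A x ≤ 1) → ∀ n, ∃ t, n ≤ t ∧
      2 ^ (t + 2) ≤ cnt (agrb A F) (4 ^ (t + 1)) (4 ^ (t + 2))
  · refine ⟨hl F, fun z => bt (F z.unpair.1) (2 * z.unpair.2), hl_rec hF, ?_,
      ⟨0, fun t _ => hl_count F t⟩, ?_⟩
    · have h1 : Computable fun z : ℕ => bt z.unpair.1 (2 * z.unpair.2) :=
        bt_comp u1 (cmul (Computable.const 2) u2)
      refine ((Computable.recT (O := O) h1).comp (RecT.pair (hF.comp (Computable.recT u1))
        (Computable.recT u2))).of_eq ?_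
      intro z
      simp only [Nat.unpair_pair]
    · intro A hA hA1 n
      obtain ⟨t, ht, hcnt⟩ := hcase A hA hA1 n
      refine ⟨t, ht, ?_⟩
      rw [cnt_card] at hcnt
      set S := (Finset.Ico (4 ^ (t + 1)) (4 ^ (t + 2))).filter fun j => agrb A F j = 1 with hS
      have hSne : S.Nonempty := by
        rw [← Finset.card_pos]
        exact lt_of_lt_of_le (by positivity) hcnt
      obtain ⟨k0, hk0⟩ := hSne
      have hSA : ∀ k ∈ S, ∀ x < 2 ^ (4 ^ (t + 1)), bt (F k) (2 * x) = A x := by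
        intro k hk x hx
        rw [hS, Finset.mem_filter, Finset.mem_Ico] at hk
        refine (agrb_iff A F k).1 hk.2 x (lt_of_lt_of_le hx ?_)
        exact Nat.pow_le_pow_right (by norm_num) (by omega)
      have hk0' := hk0
      rw [hS, Finset.mem_filter, Finset.mem_Ico] at hk0'
      classical
      have hex : ∃ l, 4 ^ (t + 1) ≤ l ∧ simb F t l k0 = true :=
        ⟨k0, hk0'.1.1, (simb_iff _ _ _ _).2 (fun x _ => rfl)⟩
      have hl1 := Nat.find_spec hex
      have hlmin : ∀ m, m < Nat.find hex → ¬ (4 ^ (t + 1) ≤ m ∧ simb F t m k0 = true) :=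
        fun m hm => Nat.find_min hex hm
      have hlle : Nat.find hex ≤ k0 := Nat.find_min' hex
        ⟨hk0'.1.1, (simb_iff _ _ _ _).2 (fun x _ => rfl)⟩
      generalize Nat.find hex = l at hl1 hlmin hlle
      have hlk : l < 4 ^ (t + 2) := lt_of_le_of_lt hlle hk0'.1.2
      have hlA : ∀ x < 2 ^ (4 ^ (t + 1)), bt (F l) (2 * x) = A x := by
        intro x hx
        rw [(simb_iff _ _ _ _).1 hl1.2 x hx]
        exact hSA k0 hk0 x hx
      refine ⟨l, hl1.1, hlk, (hl_iff hl1.1 hlk).2 ⟨?_, ?_⟩, ?_⟩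
      · unfold cls
        rw [cnt_card]
        refine le_trans hcnt (Finset.card_le_card ?_)
        intro k hk
        have hk' := hk
        rw [hS, Finset.mem_filter] at hk'
        rw [Finset.mem_filter]
        refine ⟨hk'.1, ?_⟩
        have : simb F t l k = true := by
          rw [simb_iff]
          intro x hx
          rw [hlA x hx, hSA k hk x hx]
        rw [this]; rfl
      · intro k' hk' hlt hs
        refine hlmin k' hlt ⟨hk', ?_⟩
        rw [simb_iff] at hs ⊢
        intro x hx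
        rw [← hs x hx, hlA x hx, hSA k0 hk0 x hx]
      · intro x hx
        show bt (F (Nat.pair l x).unpair.1) (2 * (Nat.pair l x).unpair.2) = A x
        rw [Nat.unpair_pair]
        exact hlA x hx
  · push Not at hcase
    obtain ⟨A0, hA0, hA01, t0, ht0⟩ := hcase
    refine ⟨agrb A0 F, fun z => bt (F z.unpair.1) (2 * z.unpair.2 + 1), agrb_rec hA0 hF, ?_,
      ⟨t0, fun t ht => (ht0 t ht).le⟩, ?_⟩
    · have h1 : Computable fun z : ℕ => bt z.unpair.1 (2 * z.unpair.2 + 1) :=
        bt_comp u1 (cadd (cmul (Computable.const 2) u2) (Computable.const 1))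
      refine ((Computable.recT (O := O) h1).comp (RecT.pair (hF.comp (Computable.recT u1))
        (Computable.recT u2))).of_eq ?_
      intro z
      simp only [Nat.unpair_pair]
    · intro A hA hA1 n
      obtain ⟨k, hk, hFk⟩ := hioe (jn A0 A) (jn_comp hA0 hA) (jn_le hA01 hA1) (4 ^ (n + 2))
      have hk0 : k ≠ 0 := by
        have : 0 < 4 ^ (n + 2) := by positivity
        omega
      have hlog1 : n + 2 ≤ Nat.log 4 k := Nat.le_log_of_pow_le (by norm_num) hk
      obtain ⟨t, ht⟩ : ∃ t, Nat.log 4 k = t + 1 := ⟨Nat.log 4 k - 1, by omega⟩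
      have hk1 : 4 ^ (t + 1) ≤ k := by
        rw [← ht]; exact Nat.pow_log_le_self 4 hk0
      have hk2 : k < 4 ^ (t + 2) := by
        have := Nat.lt_pow_succ_log_self (b := 4) (by norm_num) k
        rw [ht] at this
        exact this
      have hbits : ∀ j < 2 ^ (k + 3), bt (F k) j = jn A0 A j := by
        intro j hj
        rw [hFk]
        exact bt_val (jn_le hA01 hA1) hj
      have hpow : 2 ^ (k + 3) = 2 * 2 ^ (k + 2) := by ring
      refine ⟨t, by omega, k, hk1, hk2, ?_, ?_⟩
      · rw [agrb_iff]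
        intro j hj
        rw [hbits (2 * j) (by omega), jn_even]
      · intro x hx
        show bt (F (Nat.pair k x).unpair.1) (2 * (Nat.pair k x).unpair.2 + 1) = A x
        rw [Nat.unpair_pair]
        show bt (F k) (2 * x + 1) = A x
        have hx2 : x < 2 ^ (k + 2) :=
          lt_of_lt_of_le hx (Nat.pow_le_pow_right (by norm_num) (by omega))
        rw [hbits (2 * x + 1) (by omega), jn_odd]

end Pool.Agent.H448R3
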