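import Pool.Agent.H448R3.Tools
import Pool.Agent.Helper743.Ideal

set_option autoImplicit false

/-! Counting disagreements; a near-avoidance construction. -/

namespace Pool.Agent.H448R3

/-- the bit function -/
def bit (b : Bool) : ℕ := bif b then 1 else 0

theorem bit_inj {a b : Bool} (h : bit a = bit b) : a = b := by
  cases a <;> cases b <;> simp [bit] at h ⊢

/-- number of disagreements below `m` -/
def er (f g : ℕ → ℕ) (m : ℕ) : ℕ :=
  Nat.rec (motive := fun _ => ℕ) 0 (fun j acc => acc + (bif (f j == g j) then 0 else 1)) m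

theorem er_zero (f g : ℕ → ℕ) : er f g 0 = 0 := rfl

theorem er_succ (f g : ℕ → ℕ) (m : ℕ) :
    er f g (m + 1) = er f g m + (if f m = g m then 0 else 1) := by
  show er f g m + (bif (f m == g m) then 0 else 1) = _
  by_cases h : f m = g m
  · simp [h]
  · have : (f m == g m) = false := by simp [h]
    rw [this]; simp [h]

theorem er_comm (f g : ℕ → ℕ) (m : ℕ) : er f g m = er g f m := by
  induction m with
  | zero => rfl
  | succ m ih => rw [er_succ, er_succ, ih]; simp only [eq_comm]

theorem er_triangle (f g h : ℕ → ℕ) (m : ℕ) : er f h m ≤ er f g m + er g h m := by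
  induction m with
  | zero => simp [er_zero]
  | succ m ih =>
    rw [er_succ, er_succ, er_succ]
    by_cases h1 : f m = g m <;> by_cases h2 : g m = h m <;> by_cases h3 : f m = h m
    all_goals simp only [h1, h2, h3, if_true, if_false] <;> omega

theorem er_mono (f g : ℕ → ℕ) {m n : ℕ} (h : m ≤ n) : er f g m ≤ er f g n := by
  induction n with
  | zero => rw [Nat.le_zero.1 h]
  | succ n ih =>
    rcases Nat.lt_or_eq_of_le h with h' | rfl
    · rw [er_succ]; exact le_trans (ih (Nat.lt_succ_iff.1 h')) (Nat.le_add_right _ _)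
    · exact le_refl _

theorem er_congr {f g f' g' : ℕ → ℕ} {m : ℕ} (h1 : ∀ j < m, f j = f' j) (h2 : ∀ j < m, g j = g' j) :
    er f g m = er f' g' m := by
  induction m with
  | zero => rfl
  | succ m ih =>
    rw [er_succ, er_succ, ih (fun j hj => h1 j (Nat.lt_succ_of_lt hj))
      (fun j hj => h2 j (Nat.lt_succ_of_lt hj)), h1 m (Nat.lt_succ_self m),
      h2 m (Nat.lt_succ_self m)]

theorem er_const {f g : ℕ → ℕ} {n m : ℕ} (hnm : n ≤ m) (h : ∀ j, n ≤ j → j < m → f j = g j) :
    er f g m = er f g n := by
  induction m with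
  | zero => rw [Nat.le_zero.1 hnm]
  | succ m ih =>
    rcases Nat.lt_or_eq_of_le hnm with h' | rfl
    · have h'' := Nat.lt_succ_iff.1 h'
      rw [er_succ, ih h'' (fun j h1 h2 => h j h1 (Nat.lt_succ_of_lt h2)),
        if_pos (h m h'' (Nat.lt_succ_self m))]
      rfl
    · rfl

theorem er_le (f g : ℕ → ℕ) (m : ℕ) : er f g m ≤ m := by
  induction m with
  | zero => exact le_refl _
  | succ m ih => rw [er_succ]; split_ifs <;> omega

/-- splitting at `n` -/
theorem er_le_add {f g h : ℕ → ℕ} {n m : ℕ} (_hnm : n ≤ m)
    (hh : ∀ j, n ≤ j → j < m → f j = h j ∨ f j = g j) : er f g m ≤ er f g n + er h g m := by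
  induction m with
  | zero => rw [er_zero]; exact Nat.zero_le _
  | succ m ih =>
    rcases Nat.lt_or_eq_of_le _hnm with h' | rfl
    · have h'' := Nat.lt_succ_iff.1 h'
      have h1 := ih h'' (fun j h1 h2 => hh j h1 (Nat.lt_succ_of_lt h2))
      rw [er_succ, er_succ]
      rcases hh m h'' (Nat.lt_succ_self m) with h2 | h2
      · rw [h2]; omega
      · rw [h2]; simp only [if_true]; split_ifs <;> omega
    · exact Nat.le_add_right _ _

/-- the numerical function given by a string -/
def tf (τ : List Bool) : ℕ → ℕ := fun j => bit (τ.getD j false)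

theorem tf_of_prefix {σ τ : List Bool} (h : σ <+: τ) {j : ℕ} (hj : j < σ.length) :
    tf τ j = tf σ j := by
  unfold tf
  have hj' : j < τ.length := lt_of_lt_of_le hj h.length_le
  rw [List.getD_eq_getElem?_getD, List.getD_eq_getElem?_getD, List.getElem?_eq_getElem hj,
    List.getElem?_eq_getElem hj', h.getElem hj]

/-- the initial segments of a Boolean sequence -/
def bseg (x : ℕ → Bool) (n : ℕ) : List Bool := (List.range n).map x

theorem bseg_length (x : ℕ → Bool) (n : ℕ) : (bseg x n).length = n := by simp [bseg]

theorem bseg_getD (x : ℕ → Bool) {n j : ℕ} (h : j < n) : (bseg x n).getD j false = x j := by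
  rw [List.getD_eq_getElem?_getD]; simp [bseg, h]

theorem tf_bseg (x : ℕ → Bool) {n j : ℕ} (h : j < n) : tf (bseg x n) j = bit (x j) := by
  unfold tf; rw [bseg_getD x h]

theorem bseg_prefix (x : ℕ → Bool) {m n : ℕ} (h : m ≤ n) : bseg x m <+: bseg x n := by
  obtain ⟨d, rfl⟩ := Nat.exists_eq_add_of_le h
  unfold bseg
  rw [List.range_add, List.map_append]
  exact List.prefix_append _ _

theorem bseg_map (x : ℕ → Bool) (n : ℕ) :
    (bseg x n).map bit = Helper743.pre (fun j => bit (x j)) n := by
  unfold bseg Helper743.pre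
  rw [List.map_map]
  rfl

/-- a string is the initial segment of each sequence extending it -/
theorem eq_bseg {σ : List Bool} {x : ℕ → Bool} (h : ∀ j < σ.length, x j = σ.getD j false) :
    σ = bseg x σ.length := by
  apply List.ext_getElem?
  intro i
  by_cases hi : i < σ.length
  · have h1 := h i hi
    rw [List.getD_eq_getElem?_getD, List.getElem?_eq_getElem hi, Option.getD_some] at h1
    rw [List.getElem?_eq_getElem hi, ← h1]
    simp [bseg, hi]
  · rw [List.getElem?_eq_none (not_lt.1 hi), List.getElem?_eq_none (by rw [bseg_length]; exact not_lt.1 hi)]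

theorem map_bit_comp {α : Type} [Primcodable α] {σ : α → List Bool} (h : Computable σ) :
    Computable fun a => (σ a).map bit := by
  have h1 : Primrec bit := Primrec.cond Primrec.id (Primrec.const 1) (Primrec.const 0)
  have h2 : Primrec fun l : List Bool => l.map bit :=
    Primrec.list_map Primrec.id (h1.comp Primrec.snd)
  exact h2.to_comp.comp h

theorem tf_comp {α : Type} [Primcodable α] {σ : α → List Bool} {j : α → ℕ} (h : Computable σ)
    (hj : Computable j) : Computable fun a => tf (σ a) (j a) := by
  have h1 : Primrec bit := Primrec.cond Primrec.id (Primrec.const 1) (Primrec.const 0)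
  exact h1.to_comp.comp ((Primrec.list_getD false).to_comp.comp h hj)

theorem er_comp {α : Type} [Primcodable α] {f g : α → ℕ → ℕ} {m : α → ℕ}
    (hf : Computable₂ f) (hg : Computable₂ g) (hm : Computable m) :
    Computable fun a => er (f a) (g a) (m a) := by
  have h3 : Computable₂ fun (a : α) (p : ℕ × ℕ) =>
      p.2 + (bif (f a p.1 == g a p.1) then 0 else 1) := by
    have c1 : Computable fun q : α × (ℕ × ℕ) => (f q.1 q.2.1 == g q.1 q.2.1) :=
      cbeqN (hf.comp Computable.fst (Computable.fst.comp Computable.snd))
        (hg.comp Computable.fst (Computable.fst.comp Computable.snd))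
    exact (Primrec.nat_add.to_comp.comp (Computable.snd.comp Computable.snd)
      (Computable.cond c1 (Computable.const 0) (Computable.const 1))).to₂
  exact (Computable.nat_rec hm (Computable.const 0) h3).of_eq fun a => rfl

theorem bprefix_dec : Computable₂ fun (σ τ : List Bool) => decide (σ <+: τ) := by
  have h1 : Primrec₂ fun (σ τ : List Bool) => (τ.take σ.length) := by
    exact Primrec.list_take.comp (Primrec.list_length.comp Primrec.fst) Primrec.snd
  have h2 : Primrec₂ fun (σ τ : List Bool) => decide (σ = τ.take σ.length) := by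
    exact (Primrec.eq.decide).comp Primrec.fst h1
  refine h2.to_comp.of_eq ?_
  intro p
  simp only [decide_eq_decide]
  exact (List.prefix_iff_eq_take).symm

/-- All computable functionals can be enumerated. -/
theorem exists_enum : ∃ en : ℕ → (List ℕ → ℕ → Option ℕ), ∀ ev, Computable₂ ev → ∃ k, en k = ev := by
  classical
  let dec : ℕ → (List ℕ → ℕ → Option ℕ) := fun k σ x =>
    if h : ∃ y : Option ℕ, Encodable.encode y ∈
      Nat.Partrec.Code.eval (Denumerable.ofNat Nat.Partrec.Code k) (Encodable.encode (σ, x))
    then h.choose else none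
  refine ⟨dec, fun ev hev => ?_⟩
  have hev' : Computable fun p : List ℕ × ℕ => ev p.1 p.2 := hev
  obtain ⟨c, hc⟩ := Nat.Partrec.Code.exists_code.1 hev'.partrec
  refine ⟨Encodable.encode c, ?_⟩
  funext σ x
  have h1 : Nat.Partrec.Code.eval (Denumerable.ofNat Nat.Partrec.Code (Encodable.encode c))
      (Encodable.encode (σ, x)) = Part.some (Encodable.encode (ev σ x)) := by
    rw [Denumerable.ofNat_encode, hc]
    simp
  have h : ∃ y : Option ℕ, Encodable.encode y ∈
      Nat.Partrec.Code.eval (Denumerable.ofNat Nat.Partrec.Code (Encodable.encode c))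
        (Encodable.encode (σ, x)) := ⟨ev σ x, by rw [h1]; exact Part.mem_some _⟩
  show (if h : ∃ y : Option ℕ, _ then _ else _) = _
  rw [dif_pos h]
  have h2 := h.choose_spec
  have h3 : Encodable.encode (ev σ x) ∈
      Nat.Partrec.Code.eval (Denumerable.ofNat Nat.Partrec.Code (Encodable.encode c))
        (Encodable.encode (σ, x)) := by rw [h1]; exact Part.mem_some _
  exact Encodable.encode_injective (Part.mem_unique h2 h3)

end Pool.Agent.H448R3
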