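import Pool.Agent.H448R3.Er

set_option autoImplicit false

/-! Existence of many binary words of length `16 d` with pairwise distance more than `d`. -/

namespace Pool.Agent.H448R3

open Finset

/-- number of agreements -/
def agc {N : ℕ} (x y : Fin N → Bool) : ℕ := (univ.filter fun i => x i = y i).card

theorem sum_weight {N : ℕ} (x : Fin N → Bool) :
    ∑ y : Fin N → Bool, 8 ^ (agc x y) = 9 ^ N := by
  have h1 : ∀ y : Fin N → Bool, 8 ^ (agc x y) = ∏ i : Fin N, (if x i = y i then 8 else 1) := by
    intro y
    rw [Finset.prod_ite, Finset.prod_const, Finset.prod_const_one, mul_one]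
    rfl
  simp_rw [h1]
  have h2 := Finset.prod_univ_sum (fun _ : Fin N => (univ : Finset Bool))
    (fun (i : Fin N) (b : Bool) => (if x i = b then 8 else 1 : ℕ))
  rw [Fintype.piFinset_univ] at h2
  rw [← h2]
  have h3 : ∀ i : Fin N, ∑ b : Bool, (if x i = b then 8 else 1 : ℕ) = 9 := by
    intro i
    cases x i <;> simp
  simp_rw [h3]
  simp

/-- the ball -/
def ball' {N : ℕ} (x : Fin N → Bool) (a : ℕ) : Finset (Fin N → Bool) :=
  univ.filter fun y => a ≤ agc x y

theorem card_ball {N : ℕ} (x : Fin N → Bool) (a : ℕ) : (ball' x a).card * 8 ^ a ≤ 9 ^ N := by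
  rw [← sum_weight x, ← smul_eq_mul]
  refine (Finset.card_nsmul_le_sum (ball' x a) (fun y => 8 ^ (agc x y)) (8 ^ a) ?_).trans ?_
  · intro y hy
    have : a ≤ agc x y := (Finset.mem_filter.1 hy).2
    exact Nat.pow_le_pow_right (by norm_num) this
  · exact Finset.sum_le_sum_of_subset (Finset.filter_subset _ _)

theorem card_ball_lt {d : ℕ} (hd : 0 < d) (x : Fin (16 * d) → Bool) :
    (ball' x (15 * d)).card < 2 ^ (8 * d) := by
  have h1 := card_ball x (15 * d)
  have h2 : (9 : ℕ) ^ (16 * d) < 2 ^ (8 * d) * 8 ^ (15 * d) := by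
    rw [pow_mul, pow_mul, pow_mul, ← mul_pow]
    exact Nat.pow_lt_pow_left (by norm_num) (by omega)
  exact Nat.lt_of_mul_lt_mul_right (lt_of_le_of_lt h1 h2)

theorem greedy {d : ℕ} (hd : 0 < d) (n : ℕ) (hn : n ≤ 2 ^ (8 * d)) :
    ∃ c : ℕ → (Fin (16 * d) → Bool), ∀ i j, i < n → j < n → i ≠ j → agc (c i) (c j) < 15 * d := by
  induction n with
  | zero => exact ⟨fun _ _ => false, fun i j hi => absurd hi (Nat.not_lt_zero i)⟩
  | succ n ih =>
    obtain ⟨c, hc⟩ := ih (by omega)
    have hex : ∃ y : Fin (16 * d) → Bool, ∀ i < n, agc (c i) y < 15 * d := by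
      by_contra hcon
      push Not at hcon
      have h1 : (univ : Finset (Fin (16 * d) → Bool)) ⊆
          (Finset.range n).biUnion fun i => ball' (c i) (15 * d) := by
        intro y _
        obtain ⟨i, hi, hy⟩ := hcon y
        exact Finset.mem_biUnion.2 ⟨i, Finset.mem_range.2 hi,
          Finset.mem_filter.2 ⟨Finset.mem_univ _, hy⟩⟩
      have h2 := Finset.card_le_card h1
      have h3 := Finset.card_biUnion_le_card_mul (Finset.range n)
        (fun i => ball' (c i) (15 * d)) (2 ^ (8 * d) - 1)
        (fun i _ => Nat.le_sub_one_of_lt (card_ball_lt hd (c i)))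
      rw [Finset.card_univ, Fintype.card_fun, Fintype.card_fin, Fintype.card_bool] at h2
      rw [Finset.card_range] at h3
      have h4 : n * (2 ^ (8 * d) - 1) < 2 ^ (16 * d) := by
        have h5 : (2 : ℕ) ^ (16 * d) = 2 ^ (8 * d) * 2 ^ (8 * d) := by
          rw [← pow_add]; congr 1; ring
        rw [h5]
        have h6 : 0 < (2 : ℕ) ^ (8 * d) := by positivity
        calc n * (2 ^ (8 * d) - 1) ≤ n * 2 ^ (8 * d) := Nat.mul_le_mul_left _ (Nat.sub_le _ _)
          _ < 2 ^ (8 * d) * 2 ^ (8 * d) := Nat.mul_lt_mul_of_pos_right (by omega) h6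
      omega
    obtain ⟨y, hy⟩ := hex
    have hsym : ∀ a b : Fin (16 * d) → Bool, agc a b = agc b a := by
      intro a b
      unfold agc
      congr 1
      ext i
      simp [eq_comm]
    refine ⟨fun i => if i = n then y else c i, fun i j hi hj hij => ?_⟩
    by_cases h1 : i = n
    · subst h1
      have h2 : j ≠ i := fun h => hij h.symm
      simp only [if_true, if_neg h2]
      rw [hsym]
      exact hy j (by omega)
    · by_cases h2 : j = n
      · subst h2
        simp only [if_true, if_neg h1]
        exact hy i (by omega)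
      · simp only [if_neg h1, if_neg h2]
        exact hc i j (by omega) (by omega) hij

/-- the Boolean sequence given by a word -/
def ofWord {N : ℕ} (x : Fin N → Bool) (j : ℕ) : Bool := if h : j < N then x ⟨j, h⟩ else false

theorem er_agc {N : ℕ} (x y : Fin N → Bool) :
    er (fun j => bit (ofWord x j)) (fun j => bit (ofWord y j)) N + agc x y = N := by
  have h1 : ∀ m, m ≤ N → er (fun j => bit (ofWord x j)) (fun j => bit (ofWord y j)) m =
      ∑ j ∈ Finset.range m, (if ofWord x j = ofWord y j then 0 else 1) := by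
    intro m _
    induction m with
    | zero => simp [er_zero]
    | succ m ih =>
      rw [er_succ, Finset.sum_range_succ, ih (by omega)]
      congr 1
      by_cases h : ofWord x m = ofWord y m
      · rw [if_pos h, if_pos (by rw [h])]
      · rw [if_neg h, if_neg (fun hh => h (bit_inj hh))]
  rw [h1 N (le_refl _), Finset.sum_range]
  have h2 : agc x y = ∑ i : Fin N, (if x i = y i then 1 else 0) := by
    unfold agc
    rw [Finset.card_filter]
  rw [h2, ← Finset.sum_add_distrib]
  have h3 : ∀ i : Fin N, ((if ofWord x i = ofWord y i then 0 else 1) +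
      (if x i = y i then 1 else 0) : ℕ) = 1 := by
    intro i
    have e1 : ofWord x i = x i := by unfold ofWord; rw [dif_pos i.2]
    have e2 : ofWord y i = y i := by unfold ofWord; rw [dif_pos i.2]
    rw [e1, e2]
    by_cases h : x i = y i
    · simp [h]
    · simp [h]
  simp_rw [h3]
  simp

/-- Existence of a good code. -/
theorem exists_code' {d : ℕ} (hd : 0 < d) : ∃ c : ℕ → ℕ → Bool, ∀ m m', m < 2 ^ (8 * d) →
    m' < 2 ^ (8 * d) → m ≠ m' → d < er (fun j => bit (c m j)) (fun j => bit (c m' j)) (16 * d) := by
  obtain ⟨c, hc⟩ := greedy hd (2 ^ (8 * d)) (le_refl _)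
  refine ⟨fun m j => ofWord (c m) j, fun m m' hm hm' hne => ?_⟩
  have h1 := hc m m' hm hm' hne
  have h2 := er_agc (c m) (c m')
  show d < er (fun j => bit (ofWord (c m) j)) (fun j => bit (ofWord (c m') j)) (16 * d)
  generalize er (fun j => bit (ofWord (c m) j)) (fun j => bit (ofWord (c m') j)) (16 * d) = e at *
  generalize agc (c m) (c m') = a at *
  omega

/-! ### Computability of simple functions -/

theorem pow2_comp : Computable fun n : ℕ => 2 ^ n := by
  have h1 : Primrec fun n : ℕ => Nat.rec (motive := fun _ => ℕ) 1 (fun _ y => 2 * y) n :=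
    Primrec.nat_rec₁ 1 ((Primrec.nat_mul.comp (Primrec.const 2) Primrec.snd).to₂)
  refine h1.to_comp.of_eq ?_
  intro n
  induction n with
  | zero => rfl
  | succ n ih =>
    show 2 * _ = _
    rw [ih]; ring

theorem cadd {α : Type} [Primcodable α] {f g : α → ℕ} (hf : Computable f) (hg : Computable g) :
    Computable fun a => f a + g a := Primrec.nat_add.to_comp.comp hf hg
theorem csub {α : Type} [Primcodable α] {f g : α → ℕ} (hf : Computable f) (hg : Computable g) :
    Computable fun a => f a - g a := Primrec.nat_sub.to_comp.comp hf hg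
theorem cmul {α : Type} [Primcodable α] {f g : α → ℕ} (hf : Computable f) (hg : Computable g) :
    Computable fun a => f a * g a := Primrec.nat_mul.to_comp.comp hf hg
theorem cdiv {α : Type} [Primcodable α] {f g : α → ℕ} (hf : Computable f) (hg : Computable g) :
    Computable fun a => f a / g a := Primrec.nat_div.to_comp.comp hf hg
theorem cmod {α : Type} [Primcodable α] {f g : α → ℕ} (hf : Computable f) (hg : Computable g) :
    Computable fun a => f a % g a := Primrec.nat_mod.to_comp.comp hf hg
theorem cbit {α : Type} [Primcodable α] {f : α → Bool} (hf : Computable f) :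
    Computable fun a => bit (f a) := by
  have h1 : Primrec bit := Primrec.cond Primrec.id (Primrec.const 1) (Primrec.const 0)
  exact h1.to_comp.comp hf

/-- A computable family of good codes. -/
theorem exists_cw : ∃ cw : ℕ → ℕ → List Bool, Computable₂ cw ∧
    ∀ k m m', m < 2 ^ (8 * 2 ^ k) → m' < 2 ^ (8 * 2 ^ k) → m ≠ m' →
      2 ^ k < er (tf (cw k m)) (tf (cw k m')) (16 * 2 ^ k) := by
  let q : ℕ → ℕ → Bool := fun k c =>
    ball (2 ^ (8 * 2 ^ k)) fun m => ball (2 ^ (8 * 2 ^ k)) fun m' =>
      (m == m') || decide (2 ^ k < er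
        (tf (((Encodable.decode (α := List (List Bool)) c).getD []).getD m []))
        (tf (((Encodable.decode (α := List (List Bool)) c).getD []).getD m' [])) (16 * 2 ^ k))
  have hK : Computable fun k : ℕ => 2 ^ (8 * 2 ^ k) :=
    pow2_comp.comp (cmul (Computable.const 8) pow2_comp)
  have hL : Computable fun c : ℕ => (Encodable.decode (α := List (List Bool)) c).getD [] :=
    Computable.option_getD Computable.decode (Computable.const [])
  have hq : Computable₂ q := by
    have h1 : Computable₂ fun (r : (ℕ × ℕ) × ℕ) (m' : ℕ) =>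
        ((r.2 == m') || decide (2 ^ r.1.1 < er
        (tf (((Encodable.decode (α := List (List Bool)) r.1.2).getD []).getD r.2 []))
        (tf (((Encodable.decode (α := List (List Bool)) r.1.2).getD []).getD m' []))
          (16 * 2 ^ r.1.1))) := by
      have c1 : Computable fun s : ((ℕ × ℕ) × ℕ) × ℕ => s.1.2 := Computable.snd.comp Computable.fst
      have c2 : Computable fun s : ((ℕ × ℕ) × ℕ) × ℕ => s.2 := Computable.snd
      have c3 : Computable fun s : ((ℕ × ℕ) × ℕ) × ℕ => s.1.1.1 :=
        Computable.fst.comp (Computable.fst.comp Computable.fst)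
      have c4 : Computable fun s : ((ℕ × ℕ) × ℕ) × ℕ =>
          ((Encodable.decode (α := List (List Bool)) s.1.1.2).getD []) :=
        hL.comp (Computable.snd.comp (Computable.fst.comp Computable.fst))
      have c5 : Computable fun s : ((ℕ × ℕ) × ℕ) × ℕ =>
          ((Encodable.decode (α := List (List Bool)) s.1.1.2).getD []).getD s.1.2 [] :=
        (Primrec.list_getD []).to_comp.comp c4 c1
      have c6 : Computable fun s : ((ℕ × ℕ) × ℕ) × ℕ =>
          ((Encodable.decode (α := List (List Bool)) s.1.1.2).getD []).getD s.2 [] :=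
        (Primrec.list_getD []).to_comp.comp c4 c2
      have c7 := er_comp (tf_comp (c5.comp Computable.fst) Computable.snd).to₂
        (tf_comp (c6.comp Computable.fst) Computable.snd).to₂
        (cmul (Computable.const 16) (pow2_comp.comp c3))
      exact cor (cbeqN c1 c2) (clt (pow2_comp.comp c3) c7)
    have h2 : Computable₂ fun (r : ℕ × ℕ) (m : ℕ) => ball (2 ^ (8 * 2 ^ r.1)) fun m' =>
        ((m == m') || decide (2 ^ r.1 < er
        (tf (((Encodable.decode (α := List (List Bool)) r.2).getD []).getD m []))
        (tf (((Encodable.decode (α := List (List Bool)) r.2).getD []).getD m' []))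
          (16 * 2 ^ r.1))) :=
      ball_comp (hK.comp (Computable.fst.comp Computable.fst)) h1
    exact ball_comp (hK.comp Computable.fst) h2
  have hex : ∀ k, ∃ c, q k c = true := by
    intro k
    obtain ⟨c, hc⟩ := exists_code' (d := 2 ^ k) (by positivity)
    let L : List (List Bool) := (List.range (2 ^ (8 * 2 ^ k))).map fun m => bseg (c m) (16 * 2 ^ k)
    have hLm : ∀ m < 2 ^ (8 * 2 ^ k), L.getD m [] = bseg (c m) (16 * 2 ^ k) := by
      intro m hm
      rw [List.getD_eq_getElem?_getD]
      simp [L, hm]
    refine ⟨Encodable.encode L, ?_⟩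
    simp only [q, ball_iff, Encodable.encodek, Option.getD_some]
    intro m hm m' hm'
    rw [hLm m hm, hLm m' hm']
    by_cases hmm : m = m'
    · simp [hmm]
    · have h1 := hc m m' hm hm' hmm
      have h2 : er (tf (bseg (c m) (16 * 2 ^ k))) (tf (bseg (c m') (16 * 2 ^ k))) (16 * 2 ^ k) =
          er (fun j => bit (c m j)) (fun j => bit (c m' j)) (16 * 2 ^ k) :=
        er_congr (fun j hj => tf_bseg _ hj) (fun j hj => tf_bseg _ hj)
      rw [h2]
      simp [h1]
  obtain ⟨F, hF, hFs⟩ := search hq hex
  refine ⟨fun k m => ((Encodable.decode (α := List (List Bool)) (F k)).getD []).getD m [], ?_, ?_⟩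
  · exact (Primrec.list_getD []).to_comp.comp (hL.comp (hF.comp Computable.fst)) Computable.snd
  · intro k m m' hm hm' hne
    have h1 := hFs k
    simp only [q, ball_iff] at h1
    have h2 := h1 m hm m' hm'
    have h3 : (m == m') = false := by simp [hne]
    rw [h3, Bool.false_or, decide_eq_true_eq] at h2
    exact h2

end Pool.Agent.H448R3
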