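import Pool.Agent.H448R3.Tools
import Pool.Agent.Helper743.Lim

set_option autoImplicit false

/-! A 1-generic set recursive in the halting problem. -/

namespace Pool.Agent.H448R3

open Nat.Partrec (Code)
open Nat.Partrec.Code

/-- one attempt to extend the string `σ` into the `e`-th c.e. set of strings -/
def att (e : ℕ) (σ : List Bool) (m : ℕ) : Option (List Bool) :=
  (Encodable.decode (α := List Bool) m.unpair.1).bind fun τ =>
    bif (decide (σ <+: τ) && (evaln m.unpair.2 (Denumerable.ofNat Code e) (Encodable.encode τ)).isSome)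
      then some τ else none

/-- the `e`-th c.e. set of strings -/
def V (e : ℕ) (τ : List Bool) : Prop :=
  (eval (Denumerable.ofNat Code e) (Encodable.encode τ)).Dom

theorem att_some {e m : ℕ} {σ τ : List Bool} (h : att e σ m = some τ) : σ <+: τ ∧ V e τ := by
  unfold att at h
  rw [Option.bind_eq_some_iff] at h
  obtain ⟨τ', h1, h2⟩ := h
  cases hc : (decide (σ <+: τ') &&
      (evaln m.unpair.2 (Denumerable.ofNat Code e) (Encodable.encode τ')).isSome) with
  | false => rw [hc] at h2; simp at h2
  | true =>
    rw [hc] at h2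
    simp only [cond_true, Option.some.injEq] at h2
    subst h2
    rw [Bool.and_eq_true, decide_eq_true_eq] at hc
    refine ⟨hc.1, ?_⟩
    obtain ⟨y, hy⟩ := Option.isSome_iff_exists.1 hc.2
    exact Part.dom_iff_mem.2 ⟨y, evaln_complete.2 ⟨_, hy⟩⟩

theorem att_exists {e : ℕ} {σ τ : List Bool} (h : σ <+: τ) (hV : V e τ) :
    ∃ m, att e σ m = some τ := by
  obtain ⟨y, hy⟩ := Part.dom_iff_mem.1 hV
  obtain ⟨k, hk⟩ := evaln_complete.1 hy
  refine ⟨Nat.pair (Encodable.encode τ) k, ?_⟩
  unfold att
  rw [Nat.unpair_pair]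
  simp only [Encodable.encodek, Option.bind_some]
  have hk' : evaln k (Denumerable.ofNat Code e) (Encodable.encode τ) = some y := hk
  rw [hk']
  simp [h]

theorem prefix_dec : Computable₂ fun (σ τ : List Bool) => decide (σ <+: τ) := by
  have h1 : Primrec₂ fun (σ τ : List Bool) => (τ.take σ.length) := by
    exact Primrec.list_take.comp (Primrec.list_length.comp Primrec.fst) Primrec.snd
  have h2 : Primrec₂ fun (σ τ : List Bool) => decide (σ = τ.take σ.length) := by
    exact (Primrec.eq.decide).comp Primrec.fst h1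
  refine h2.to_comp.of_eq ?_
  intro p
  simp only [decide_eq_decide]
  exact (List.prefix_iff_eq_take).symm

theorem att_comp {α : Type} [Primcodable α] {e m : α → ℕ} {σ : α → List Bool}
    (he : Computable e) (hσ : Computable σ) (hm : Computable m) :
    Computable fun a => att (e a) (σ a) (m a) := by
  have hm1 : Computable fun a => (m a).unpair.1 := Computable.fst.comp (Computable.unpair.comp hm)
  have hm2 : Computable fun a => (m a).unpair.2 := Computable.snd.comp (Computable.unpair.comp hm)
  refine Computable.option_bind (Computable.decode.comp hm1) ?_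
  have c1 : Computable fun q : α × List Bool => decide (σ q.1 <+: q.2) :=
    prefix_dec.comp (hσ.comp Computable.fst) Computable.snd
  have c2 : Computable fun q : α × List Bool =>
      (evaln (m q.1).unpair.2 (Denumerable.ofNat Code (e q.1)) (Encodable.encode q.2)).isSome := by
    have h3 : Computable fun q : α × List Bool =>
      (evaln (m q.1).unpair.2 (Denumerable.ofNat Code (e q.1)) (Encodable.encode q.2)) :=
      primrec_evaln.to_comp.comp ((((hm2.comp Computable.fst)).pair
        ((Computable.ofNat Code).comp (he.comp Computable.fst))).pair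
        (Computable.encode.comp Computable.snd))
    exact Primrec.option_isSome.to_comp.comp h3
  exact Computable.cond (cand c1 c2) (Computable.option_some.comp Computable.snd)
    (Computable.const none)

/-- stage `s` of the decision about the `e`-th set -/
def ext (s e : ℕ) (σ : List Bool) : List Bool := ((fs (att e σ) s).getD σ) ++ [false]

/-- the approximations of the strings -/
def T (s : ℕ) (e : ℕ) : List Bool :=
  Nat.rec (motive := fun _ => List Bool) [] (fun e σ => ext s e σ) e

theorem T_zero (s : ℕ) : T s 0 = [] := rfl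
theorem T_succ (s e : ℕ) : T s (e + 1) = ext s e (T s e) := rfl

theorem T_comp : Computable₂ T := by
  have h : Computable fun q : (ℕ × ℕ) × (ℕ × List Bool) => ext q.1.1 q.2.1 q.2.2 := by
    unfold ext
    have h1 : Computable₂ fun (q : (ℕ × ℕ) × (ℕ × List Bool)) (m : ℕ) =>
        att q.2.1 q.2.2 m :=
      att_comp (Computable.fst.comp (Computable.snd.comp Computable.fst))
        (Computable.snd.comp (Computable.snd.comp Computable.fst)) Computable.snd
    have h2 : Computable fun q : (ℕ × ℕ) × (ℕ × List Bool) => fs (att q.2.1 q.2.2) q.1.1 :=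
      fs_comp h1 (Computable.fst.comp Computable.fst)
    have h3 : Computable fun q : (ℕ × ℕ) × (ℕ × List Bool) =>
        (fs (att q.2.1 q.2.2) q.1.1).getD q.2.2 :=
      Computable.option_getD h2 (Computable.snd.comp Computable.snd)
    exact (Primrec.list_append.to_comp).comp h3 (Computable.const [false])
  exact (Computable.nat_rec (f := fun p : ℕ × ℕ => p.2) (g := fun _ => ([] : List Bool))
    (h := fun p q => ext p.1 q.1 q.2) Computable.snd (Computable.const _) h.to₂).of_eq
    fun p => rfl

theorem ext_ev (e : ℕ) (σ : List Bool) : ∃ τ s0, (∀ s, s0 ≤ s → ext s e σ = τ) ∧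
    σ <+: τ ∧ σ.length < τ.length ∧
    ((∃ ρ, ρ <+: τ ∧ V e ρ) ∨ (∀ ρ, σ <+: ρ → ¬ V e ρ)) := by
  by_cases h : ∃ m ρ, att e σ m = some ρ
  · obtain ⟨m, ρ, h⟩ := h
    obtain ⟨z, hz⟩ := fs_exists (Nat.lt_succ_self m) h
    obtain ⟨k, _, hk⟩ := fs_some hz
    obtain ⟨h1, h2⟩ := att_some hk
    refine ⟨z ++ [false], m + 1, fun s hs => ?_, h1.trans (List.prefix_append _ _), ?_, ?_⟩
    · unfold ext
      rw [fs_mono hs hz]; rfl
    · have := h1.length_le
      simp; omega
    · exact Or.inl ⟨z, List.prefix_append _ _, h2⟩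
  · refine ⟨σ ++ [false], 0, fun s _ => ?_, List.prefix_append _ _, by simp, Or.inr ?_⟩
    · unfold ext
      cases hf : fs (att e σ) s with
      | none => rfl
      | some z =>
        obtain ⟨k, _, hk⟩ := fs_some hf
        exact absurd ⟨k, z, hk⟩ h
    · intro ρ hρ hV
      obtain ⟨m, hm⟩ := att_exists hρ hV
      exact h ⟨m, ρ, hm⟩

theorem T_ev (e : ℕ) : ∃ τ s0, ∀ s, s0 ≤ s → T s e = τ := by
  induction e with
  | zero => exact ⟨[], 0, fun _ _ => rfl⟩
  | succ e ih =>
    obtain ⟨σ, s0, h0⟩ := ih
    obtain ⟨τ, s1, h1, _⟩ := ext_ev e σ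
    refine ⟨τ, max s0 s1, fun s hs => ?_⟩
    rw [T_succ, h0 s (le_trans (le_max_left _ _) hs), h1 s (le_trans (le_max_right _ _) hs)]

/-- the limit strings -/
noncomputable def TT (e : ℕ) : List Bool := (T_ev e).choose

theorem TT_spec (e : ℕ) : ∃ s0, ∀ s, s0 ≤ s → T s e = TT e := (T_ev e).choose_spec

theorem TT_succ (e : ℕ) : TT e <+: TT (e + 1) ∧ (TT e).length < (TT (e + 1)).length ∧
    ((∃ ρ, ρ <+: TT (e + 1) ∧ V e ρ) ∨ (∀ ρ, TT e <+: ρ → ¬ V e ρ)) := by
  obtain ⟨s0, h0⟩ := TT_spec e
  obtain ⟨s1, h1⟩ := TT_spec (e + 1)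
  obtain ⟨τ, s2, h2, h3, h4, h5⟩ := ext_ev e (TT e)
  have : τ = TT (e + 1) := by
    have a := h0 (max s0 (max s1 s2)) (le_max_left _ _)
    have b := h1 (max s0 (max s1 s2)) (le_trans (le_max_left _ _) (le_max_right _ _))
    have c := h2 (max s0 (max s1 s2)) (le_trans (le_max_right _ _) (le_max_right _ _))
    rw [← c, ← b, T_succ, a]
  subst this
  exact ⟨h3, h4, h5⟩

theorem TT_mono {i j : ℕ} (h : i ≤ j) : TT i <+: TT j := by
  induction j with
  | zero => rw [Nat.le_zero.1 h]
  | succ j ih =>
    rcases Nat.lt_or_eq_of_le h with h' | rfl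
    · exact (ih (Nat.lt_succ_iff.1 h')).trans (TT_succ j).1
    · exact List.prefix_rfl

theorem TT_length (e : ℕ) : e ≤ (TT e).length := by
  induction e with
  | zero => exact Nat.zero_le _
  | succ e ih => have := (TT_succ e).2.1; omega

/-- the generic set -/
noncomputable def G (n : ℕ) : Bool := (TT (n + 1)).getD n false

theorem TT_get {e i : ℕ} (h : i < (TT e).length) : (TT e)[i]? = some (G i) := by
  unfold G
  have hl : i < (TT (i + 1)).length := TT_length (i + 1)
  rw [List.getD_eq_getElem?_getD, List.getElem?_eq_getElem hl, Option.getD_some]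
  rcases le_total e (i + 1) with h1 | h1
  · have h2 := (TT_mono h1)
    rw [List.getElem?_eq_getElem h]
    exact congrArg some (h2.getElem h)
  · have h2 := (TT_mono h1)
    rw [List.getElem?_eq_getElem h]
    exact congrArg some (h2.getElem hl).symm

/-- the numerical characteristic function of `G` -/
noncomputable def gG (n : ℕ) : ℕ := bif G n then 1 else 0

theorem gG_limC : Helper743.LimC gG := by
  refine ⟨fun n s => bif (T s (n + 1)).getD n false then 1 else 0, ?_, ?_⟩
  · have h1 : Computable fun p : ℕ × ℕ => T p.2 (p.1 + 1) :=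
      T_comp.comp Computable.snd (Computable.succ.comp Computable.fst)
    have h2 : Computable fun p : ℕ × ℕ => (T p.2 (p.1 + 1)).getD p.1 false :=
      (Primrec.list_getD false).to_comp.comp h1 Computable.fst
    exact Computable.cond h2 (Computable.const 1) (Computable.const 0)
  · intro k
    obtain ⟨s0, h0⟩ := TT_spec (k + 1)
    refine ⟨s0, fun s hs => ?_⟩
    simp only [h0 s hs, gG, G]

theorem gG_TR_K : Helper743.TR gG Helper743.K := gG_limC.TR_K

/-- initial segments of a numerical function as lists -/
theorem map_TT (e : ℕ) : (TT e).map (fun b => bif b then 1 else 0) =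
    Helper743.pre gG (TT e).length := by
  apply List.ext_getElem?
  intro i
  by_cases h : i < (TT e).length
  · rw [List.getElem?_map, TT_get h, Helper743.pre_getElem?, if_pos h]
    rfl
  · rw [List.getElem?_map, Helper743.pre_getElem?, if_neg h,
      List.getElem?_eq_none (not_lt.1 h)]
    rfl

end Pool.Agent.H448R3
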