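import Pool.Agent.H448R3.Gen

set_option autoImplicit false

/-! A function recursive in the generic set with co-c.e. graph is computable. -/

namespace Pool.Agent.H448R3

open Nat.Partrec (Code)
open Nat.Partrec.Code

theorem re_of_ex {α : Type} [Primcodable α] {q : α → ℕ → Bool} (hq : Computable₂ q) :
    REPred fun a => ∃ n, q a n = true := by
  have h2 := (Partrec.rfind (p := fun a n => (Part.some (q a n) : Part Bool)) hq.partrec₂).dom_re
  refine h2.of_eq ?_
  intro a
  refine Iff.trans (Nat.rfind_dom (p := fun n => (Part.some (q a n) : Part Bool))) ?_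
  constructor
  · rintro ⟨n, hn, _⟩
    rw [Part.mem_some_iff] at hn
    exact ⟨n, hn.symm⟩
  · rintro ⟨n, hn⟩
    exact ⟨n, by rw [hn]; exact Part.mem_some _, fun {m} _ => trivial⟩

/-- c.e. predicates as projections -/
theorem ex_of_re {α : Type} [Primcodable α] {p : α → Prop} (h : REPred p) :
    ∃ q : α → ℕ → Bool, Computable₂ q ∧ ∀ a, p a ↔ ∃ n, q a n = true := by
  obtain ⟨c, hc⟩ := exists_code.1 h
  refine ⟨fun a n => (evaln n c (Encodable.encode a)).isSome, ?_, ?_⟩
  · have h3 : Computable fun q : α × ℕ => evaln q.2 c (Encodable.encode q.1) :=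
      primrec_evaln.to_comp.comp ((Computable.snd.pair (Computable.const c)).pair
        (Computable.encode.comp Computable.fst))
    exact Primrec.option_isSome.to_comp.comp h3
  · intro a
    have h1 : (eval c (Encodable.encode a)).Dom ↔ p a := by
      rw [hc]
      simp [Part.dom_iff_mem]
    rw [← h1, Part.dom_iff_mem]
    constructor
    · rintro ⟨y, hy⟩
      obtain ⟨k, hk⟩ := evaln_complete.1 hy
      exact ⟨k, Option.isSome_iff_exists.2 ⟨y, hk⟩⟩
    · rintro ⟨n, hn⟩
      obtain ⟨y, hy⟩ := Option.isSome_iff_exists.1 hn
      exact ⟨y, evaln_complete.2 ⟨n, hy⟩⟩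

theorem re_index {W : List Bool → Prop} (hW : REPred W) : ∃ e, ∀ τ, V e τ ↔ W τ := by
  obtain ⟨c, hc⟩ := exists_code.1 hW
  refine ⟨Encodable.encode c, fun τ => ?_⟩
  unfold V
  rw [Denumerable.ofNat_encode, hc]
  simp [Part.dom_iff_mem]

/-- the bit function -/
def bt (b : Bool) : ℕ := bif b then 1 else 0

theorem pre_prefix_TT (n e : ℕ) : ∃ j, e ≤ j ∧ Helper743.pre gG n <+: (TT j).map bt := by
  refine ⟨max n e, le_max_right _ _, ?_⟩
  have h := map_TT (max n e)
  have h2 : (TT (max n e)).map bt = Helper743.pre gG (TT (max n e)).length := h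
  rw [h2]
  exact Helper743.pre_prefix gG (le_trans (le_max_left n e) (TT_length _))

theorem map_bt_comp {α : Type} [Primcodable α] {σ : α → List Bool} (h : Computable σ) :
    Computable fun a => (σ a).map bt := by
  have h1 : Primrec bt := Primrec.cond Primrec.id (Primrec.const 1) (Primrec.const 0)
  have h2 : Primrec fun l : List Bool => l.map bt :=
    Primrec.list_map Primrec.id (h1.comp Primrec.snd)
  exact h2.to_comp.comp h

/-- A total function recursive in the generic set with a co-c.e. graph is computable. -/
theorem generic_comp {F : ℕ → ℕ} (h : Helper743.TR F gG)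
    (hre : REPred fun p : ℕ × ℕ => F p.1 ≠ p.2) : Computable F := by
  obtain ⟨ev, hev, hmono, hcor⟩ := Helper743.use_principle gG _ h
  obtain ⟨q, hq, hqF⟩ := ex_of_re hre
  -- the set of strings giving a wrong answer
  have hopt : Computable₂ fun (τ : List Bool) (m : ℕ) =>
      (ev (τ.map bt) m.unpair.1) := by
    exact hev.comp (map_bt_comp Computable.fst)
      (Computable.fst.comp (Computable.unpair.comp Computable.snd))
  let w : List Bool → ℕ → Bool := fun τ m =>
    match ev (τ.map bt) m.unpair.1 with
    | none => false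
    | some y => q (m.unpair.1, y) m.unpair.2
  have hw : Computable₂ w := by
    have h1 : Computable fun p : List Bool × ℕ => (p.2.unpair.1) :=
      Computable.fst.comp (Computable.unpair.comp Computable.snd)
    have h2 : Computable fun p : List Bool × ℕ => (p.2.unpair.2) :=
      Computable.snd.comp (Computable.unpair.comp Computable.snd)
    have h3 : Computable₂ fun (p : List Bool × ℕ) (y : ℕ) => q (p.2.unpair.1, y) p.2.unpair.2 :=
      hq.comp ((h1.comp Computable.fst).pair Computable.snd) (h2.comp Computable.fst)
    refine (Computable.option_casesOn (α := List Bool × ℕ) (o := fun p => ev (p.1.map bt) p.2.unpair.1)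
      (f := fun _ => false) (g := fun p y => q (p.2.unpair.1, y) p.2.unpair.2)
      hopt (Computable.const false) h3).of_eq ?_
    intro p
    show _ = w p.1 p.2
    simp only [w]
    cases ev (p.1.map bt) p.2.unpair.1 <;> rfl
  obtain ⟨e, he⟩ := re_index (re_of_ex hw)
  have hwspec : ∀ τ, (∃ m, w τ m = true) ↔ ∃ x y, ev (τ.map bt) x = some y ∧ F x ≠ y := by
    intro τ
    constructor
    · rintro ⟨m, hm⟩
      simp only [w] at hm
      cases hv : ev (τ.map bt) m.unpair.1 with
      | none => rw [hv] at hm; simp at hm
      | some y =>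
        rw [hv] at hm
        exact ⟨m.unpair.1, y, hv, (hqF (m.unpair.1, y)).2 ⟨_, hm⟩⟩
    · rintro ⟨x, y, hv, hne⟩
      obtain ⟨k, hk⟩ := (hqF (x, y)).1 hne
      refine ⟨Nat.pair x k, ?_⟩
      simp only [w, Nat.unpair_pair, hv]
      exact hk
  -- the true initial segments are never wrong
  have htrue : ∀ j x y, ev ((TT j).map bt) x = some y → F x = y := by
    intro j x y hxy
    have h1 : ∃ n, ev (Helper743.pre gG n) x = some y := by
      refine ⟨(TT j).length, ?_⟩
      have h2 : (TT j).map bt = Helper743.pre gG (TT j).length := map_TT j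
      rw [← h2]; exact hxy
    have h2 := (hcor x y).2 h1
    have h3 : y = F x := by
      have : y ∈ Part.some (F x) := h2
      exact Part.mem_some_iff.1 this
    exact h3.symm
  have hno : ∀ ρ, TT e <+: ρ → ¬ V e ρ := by
    rcases (TT_succ e).2.2 with ⟨ρ, h1, h2⟩ | h1
    · exfalso
      obtain ⟨x, y, h3, h4⟩ := (hwspec ρ).1 ((he ρ).1 h2)
      have h5 : ev ((TT (e + 1)).map bt) x = some y :=
        hmono _ _ _ _ (h1.map bt) h3
      exact h4 (htrue _ _ _ h5)
    · exact h1
  -- the search
  let opt : ℕ → ℕ → Option ℕ := fun x m =>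
    (Encodable.decode (α := List Bool) m).bind fun τ =>
      bif decide (TT e <+: τ) then ev (τ.map bt) x else none
  have hoptc : Computable₂ opt := by
    refine Computable.option_bind (Computable.decode.comp Computable.snd) ?_
    have c1 : Computable fun p : (ℕ × ℕ) × List Bool => decide (TT e <+: p.2) :=
      prefix_dec.comp (Computable.const (TT e)) Computable.snd
    have c2 : Computable fun p : (ℕ × ℕ) × List Bool => ev (p.2.map bt) p.1.1 :=
      hev.comp (map_bt_comp Computable.snd) (Computable.fst.comp Computable.fst)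
    exact Computable.cond c1 c2 (Computable.const none)
  have hpart := Partrec.rfindOpt hoptc
  have hcorr : ∀ x m y, opt x m = some y → F x = y := by
    intro x m y hxy
    simp only [opt] at hxy
    rw [Option.bind_eq_some_iff] at hxy
    obtain ⟨τ, h1, h2⟩ := hxy
    by_cases hp : TT e <+: τ
    · rw [decide_eq_true hp, cond_true] at h2
      by_contra hne
      exact hno τ hp ((he τ).2 ((hwspec τ).2 ⟨x, y, h2, hne⟩))
    · rw [decide_eq_false hp, cond_false] at h2
      simp at h2
  have htot : ∀ x, ∃ m, opt x m = some (F x) := by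
    intro x
    obtain ⟨n, hn⟩ := (hcor x (F x)).1 (Part.mem_some _)
    obtain ⟨j, hj, hpre⟩ := pre_prefix_TT n e
    refine ⟨Encodable.encode (TT j), ?_⟩
    simp only [opt, Encodable.encodek, Option.bind_some]
    rw [decide_eq_true (TT_mono hj), cond_true]
    exact hmono _ _ _ _ hpre hn
  refine hpart.of_eq ?_
  intro x
  apply Part.eq_some_iff.2
  obtain ⟨m, hm⟩ := htot x
  have hdom : (Nat.rfindOpt (opt x)).Dom := Nat.rfindOpt_dom.2 ⟨m, F x, hm⟩
  obtain ⟨y, hy⟩ := Part.dom_iff_mem.1 hdom
  obtain ⟨n, hn⟩ := Nat.rfindOpt_spec hy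
  have := hcorr x n y hn
  rw [this]
  exact hy

/-- the generic set is not computable -/
theorem G_not_computable : ¬ Computable G := by
  intro hG
  let w : List Bool → ℕ → Bool := fun τ i =>
    match τ[i]? with
    | none => false
    | some b => !(b == G i)
  have hw : Computable₂ w := by
    have h0 : Computable fun p : List Bool × ℕ => p.1[p.2]? := Computable.list_getElem?
    have h3 : Computable₂ fun (p : List Bool × ℕ) (b : Bool) => !(b == G p.2) :=
      cnot (cbeqB Computable.snd (hG.comp (Computable.snd.comp Computable.fst)))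
    refine (Computable.option_casesOn (α := List Bool × ℕ) (o := fun p => p.1[p.2]?)
      (f := fun _ => false) (g := fun p b => !(b == G p.2))
      h0 (Computable.const false) h3).of_eq ?_
    intro p
    show _ = w p.1 p.2
    simp only [w]
    cases p.1[p.2]? <;> rfl
  obtain ⟨e, he⟩ := re_index (re_of_ex hw)
  rcases (TT_succ e).2.2 with ⟨ρ, h1, h2⟩ | h1
  · obtain ⟨i, hi⟩ := (he ρ).1 h2
    simp only [w] at hi
    cases hv : ρ[i]? with
    | none => rw [hv] at hi; simp at hi
    | some b =>
      rw [hv] at hi
      obtain ⟨hlt, hb⟩ := List.getElem?_eq_some_iff.1 hv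
      have hlt' : i < (TT (e + 1)).length := lt_of_lt_of_le hlt h1.length_le
      have h3 := TT_get hlt'
      rw [List.getElem?_eq_getElem hlt'] at h3
      have h4 : b = G i := by
        rw [← hb, h1.getElem hlt]
        exact Option.some.inj h3
      simp [h4] at hi
  · refine h1 (TT e ++ [!(G (TT e).length)]) (List.prefix_append _ _) ((he _).2 ?_)
    refine ⟨(TT e).length, ?_⟩
    simp only [w]
    rw [List.getElem?_append_right (le_refl _)]
    simp

/-- the set as a set of numbers -/
def GS : Set ℕ := {n | G n = true}

theorem GS_not_computable : ¬ ComputablePred (fun n : ℕ => n ∈ GS) := by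
  rintro ⟨_, h⟩
  apply G_not_computable
  refine h.of_eq ?_
  intro n
  cases hg : G n with
  | true => exact decide_eq_true (show G n = true from hg)
  | false => exact decide_eq_false (fun hh : G n = true => by rw [hg] at hh; exact absurd hh (by simp))

open Classical in
/-- the halting function on the diagonal -/
noncomputable def KD (n : ℕ) : ℕ :=
  if ((Denumerable.ofNat Nat.Partrec.Code n).eval n).Dom then (1 : ℕ) else 0

theorem K_TR_KD : Helper743.TR Helper743.K KD := by
  have h1 : Computable fun z : ℕ => Encodable.encode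
      (Code.comp (Denumerable.ofNat Code z.unpair.1) (Code.const z.unpair.2)) := by
    have h2 : Primrec fun z : ℕ => Encodable.encode
      (Code.comp (Denumerable.ofNat Code z.unpair.1) (Code.const z.unpair.2)) :=
      Primrec.encode.comp (primrec₂_comp.comp
        ((Primrec.ofNat Code).comp (Primrec.fst.comp Primrec.unpair))
        (primrec_const.comp (Primrec.snd.comp Primrec.unpair)))
    exact h2.to_comp
  have h2 := (Helper743.TR.refl KD).comp (Helper743.Computable.recT (O := {(KD : ℕ →. ℕ)}) h1)
  refine Nat.RecursiveIn.of_eq h2 ?_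
  intro z
  have h3 : eval (Code.comp (Denumerable.ofNat Code z.unpair.1) (Code.const z.unpair.2))
      (Encodable.encode (Code.comp (Denumerable.ofNat Code z.unpair.1)
        (Code.const z.unpair.2))) = eval (Denumerable.ofNat Code z.unpair.1) z.unpair.2 := by
    show (eval (Code.const z.unpair.2) _ >>= eval (Denumerable.ofNat Code z.unpair.1)) = _
    rw [eval_const]
    exact Part.bind_some _ _
  have h4 : KD (Encodable.encode (Code.comp (Denumerable.ofNat Code z.unpair.1)
      (Code.const z.unpair.2))) = Helper743.K z := by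
    unfold KD Helper743.K
    have h5 : Denumerable.ofNat Code (Encodable.encode (Code.comp
        (Denumerable.ofNat Code z.unpair.1) (Code.const z.unpair.2))) =
        Code.comp (Denumerable.ofNat Code z.unpair.1) (Code.const z.unpair.2) :=
      Denumerable.ofNat_encode _
    by_cases hd : (eval (Denumerable.ofNat Code z.unpair.1) z.unpair.2).Dom
    · rw [if_pos hd, if_pos]
      rw [h5, h3]; exact hd
    · rw [if_neg hd, if_neg]
      rw [h5, h3]; exact hd
  exact congrArg Part.some h4

theorem gG_TR_KD : Helper743.TR gG KD := gG_TR_K.trans K_TR_KD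

end Pool.Agent.H448R3
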