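import Pool.Agent.H448R3.Er

set_option autoImplicit false

/-! Decoding by majority. -/

namespace Pool.Agent.H448R3

open Helper743

theorem er_diff {f g g' : ℕ → ℕ} {M M' : ℕ} (h : M ≤ M')
    (hg : ∀ j, M ≤ j → j < M' → g j = g' j) :
    er f g M' + er f g' M = er f g' M' + er f g M := by
  induction M' with
  | zero =>
    have : M = 0 := Nat.le_zero.1 h
    subst this; simp [er_zero]
  | succ M' ih =>
    rcases Nat.lt_or_eq_of_le h with h' | rfl
    · have h'' := Nat.lt_succ_iff.1 h'
      have h1 := ih h'' (fun j h1 h2 => hg j h1 (Nat.lt_succ_of_lt h2))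
      rw [er_succ, er_succ, hg M' h'' (Nat.lt_succ_self M')]
      omega
    · omega

theorem er_one_zero {f : ℕ → ℕ} (hf : ∀ j, f j = 0 ∨ f j = 1) (m : ℕ) :
    er f (fun _ => 1) m + er f (fun _ => 0) m = m := by
  induction m with
  | zero => simp [er_zero]
  | succ m ih =>
    rw [er_succ, er_succ]
    rcases hf m with h | h
    · simp [h]; omega
    · simp [h]; omega

/-- the number of zeros in the `n`-th block -/
def zer (f : ℕ → ℕ) (n : ℕ) : ℕ := er f (fun _ => 1) (2 ^ (n + 1)) - er f (fun _ => 1) (2 ^ n)

theorem majority (c f : ℕ → ℕ) (hc : ∀ n, c n = 0 ∨ c n = 1) (hf : ∀ n, f n = 0 ∨ f n = 1)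
    (n0 : ℕ) (h : ∀ m, n0 ≤ m → er f (fun j => c (Nat.log 2 j)) m * 8 ≤ m) :
    TR c f := by
  have key : ∀ n, n0 ≤ n → (if 2 * zer f n < 2 ^ n then 1 else 0) = c n := by
    intro n hn
    have hlog : ∀ j, 2 ^ n ≤ j → j < 2 ^ (n + 1) → Nat.log 2 j = n := fun j h1 h2 =>
      (Nat.log_eq_iff (Or.inr ⟨by norm_num, by
        have := Nat.pos_of_ne_zero (n := 2 ^ n) (by positivity)
        omega⟩)).2 ⟨h1, h2⟩
    have hpow : 2 ^ (n + 1) = 2 * 2 ^ n := by ring
    have hle : 2 ^ n ≤ 2 ^ (n + 1) := by omega
    have hn0 : n0 ≤ 2 ^ (n + 1) := le_trans hn (le_trans (Nat.lt_pow_self (by norm_num)).le hle)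
    have herr := h _ hn0
    have hm1 := er_mono f (fun j => c (Nat.log 2 j)) hle
    have hm2 := er_mono f (fun _ => 1) hle
    rcases hc n with h0 | h1
    · have e1 := er_diff (f := f) (g := fun j => c (Nat.log 2 j)) (g' := fun _ => 0) hle
        (fun j h1 h2 => by show c (Nat.log 2 j) = 0; rw [hlog j h1 h2, h0])
      have e2 := er_one_zero hf (2 ^ (n + 1))
      have e3 := er_one_zero hf (2 ^ n)
      rw [h0, if_neg]
      unfold zer
      omega
    · have e1 := er_diff (f := f) (g := fun j => c (Nat.log 2 j)) (g' := fun _ => 1) hle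
        (fun j h2 h3 => by show c (Nat.log 2 j) = 1; rw [hlog j h2 h3, h1])
      rw [h1, if_pos]
      unfold zer
      have : 0 < 2 ^ n := by positivity
      omega
  let T := pre c n0
  let q : List ℕ → ℕ → ℕ → Option ℕ := fun ξ n _ =>
    bif decide (n < n0) then some (T.getD n 0) else
      bif decide (ξ.length < 2 ^ (n + 1)) then none else
        some (bif decide (2 * zer (fun j => ξ.getD j 0) n < 2 ^ n) then 1 else 0)
  have hpow : Computable fun n : ℕ => 2 ^ n := by
    have h1 : Primrec fun n : ℕ => Nat.rec (motive := fun _ => ℕ) 1 (fun _ y => 2 * y) n :=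
      Primrec.nat_rec₁ 1 ((Primrec.nat_mul.comp (Primrec.const 2) Primrec.snd).to₂)
    refine h1.to_comp.of_eq ?_
    intro n
    induction n with
    | zero => rfl
    | succ n ih =>
      show 2 * _ = _
      rw [ih]; ring
  have hzer : Computable fun q : (List ℕ × ℕ) × ℕ => zer (fun j => q.1.1.getD j 0) q.1.2 := by
    have a1 : Computable₂ fun (q : (List ℕ × ℕ) × ℕ) (j : ℕ) => q.1.1.getD j 0 :=
      (Primrec.list_getD 0).to_comp.comp (Computable.fst.comp (Computable.fst.comp Computable.fst))
        Computable.snd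
    have a2 : Computable₂ fun (_ : (List ℕ × ℕ) × ℕ) (_ : ℕ) => 1 := Computable.const 1
    have a3 : Computable fun q : (List ℕ × ℕ) × ℕ => q.1.2 := Computable.snd.comp Computable.fst
    exact Primrec.nat_sub.to_comp.comp (er_comp a1 a2 (hpow.comp (Computable.succ.comp a3)))
      (er_comp a1 a2 (hpow.comp a3))
  have hq : Computable (fun r : (List ℕ × ℕ) × ℕ => q r.1.1 r.1.2 r.2) := by
    have a3 : Computable fun q : (List ℕ × ℕ) × ℕ => q.1.2 := Computable.snd.comp Computable.fst
    have b1 : Computable fun r : (List ℕ × ℕ) × ℕ => decide (r.1.2 < n0) :=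
      clt a3 (Computable.const n0)
    have b2 : Computable fun r : (List ℕ × ℕ) × ℕ => (some (T.getD r.1.2 0) : Option ℕ) :=
      Computable.option_some.comp ((Primrec.list_getD 0).to_comp.comp (Computable.const T) a3)
    have b3 : Computable fun r : (List ℕ × ℕ) × ℕ => decide (r.1.1.length < 2 ^ (r.1.2 + 1)) :=
      clt (Computable.list_length.comp (Computable.fst.comp Computable.fst))
        (hpow.comp (Computable.succ.comp a3))
    have b4 : Computable fun r : (List ℕ × ℕ) × ℕ =>
        decide (2 * zer (fun j => r.1.1.getD j 0) r.1.2 < 2 ^ r.1.2) :=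
      clt (Primrec.nat_mul.to_comp.comp (Computable.const 2) hzer) (hpow.comp a3)
    exact Computable.cond b1 b2 (Computable.cond b3 (Computable.const none)
      (Computable.option_some.comp (Computable.cond b4 (Computable.const 1) (Computable.const 0))))
  have hpre : ∀ n m, 2 ^ (m + 1) ≤ n → zer (fun j => (pre f n).getD j 0) m = zer f m := by
    intro n m hm
    have h1 : ∀ l, l ≤ n → er (fun j => (pre f n).getD j 0) (fun _ => 1) l =
        er f (fun _ => 1) l := by
      intro l hl
      refine er_congr (fun j hj => ?_) (fun _ _ => rfl)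
      have hjn : j < n := by omega
      show (pre f n).getD j 0 = f j
      rw [List.getD_eq_getElem?_getD, pre_getElem?, if_pos hjn]; rfl
    unfold zer
    have h2 : 2 ^ m ≤ 2 ^ (m + 1) := Nat.pow_le_pow_right (by norm_num) (Nat.le_succ m)
    rw [h1 _ hm, h1 _ (le_trans h2 hm)]
  refine cert (TR.refl f) q hq c ?_ ?_
  · intro n
    refine ⟨2 ^ (n + 1), 0, ?_⟩
    by_cases hn : n < n0
    · simp only [q, decide_eq_true hn, cond_true, Option.isSome_some]
    · have hl : ¬ ((pre f (2 ^ (n + 1))).length < 2 ^ (n + 1)) := by simp [pre]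
      simp only [q, decide_eq_false hn, decide_eq_false hl, cond_false, Option.isSome_some]
  · intro n k w y hy
    by_cases hn : n < n0
    · simp only [q, decide_eq_true hn, cond_true, Option.some.injEq] at hy
      rw [← hy]
      show (pre c n0).getD n 0 = _
      rw [List.getD_eq_getElem?_getD, pre_getElem?, if_pos hn]; rfl
    · by_cases hl : (pre f k).length < 2 ^ (n + 1)
      · simp only [q, decide_eq_false hn, decide_eq_true hl, cond_false, cond_true] at hy
        exact absurd hy (by simp)
      · simp only [q, decide_eq_false hn, decide_eq_false hl, cond_false, Option.some.injEq] at hy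
        have hl' : 2 ^ (n + 1) ≤ k := by
          have : (pre f k).length = k := by simp [pre]
          omega
        rw [hpre k n hl'] at hy
        rw [← hy, ← key n (not_lt.1 hn)]
        by_cases hz : 2 * zer f n < 2 ^ n
        · rw [decide_eq_true hz, if_pos hz]; rfl
        · rw [decide_eq_false hz, if_neg hz]; rfl

end Pool.Agent.H448R3
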