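import Mathlib
import Pool.Agent.Helper578.OG.Generic

set_option autoImplicit false

/-! A closed set of functions which is not Muchnik equivalent to any closed subset of Cantor
space. -/

namespace Pool.Agent.H448R3.Mu

open Pool.Agent.Helper578.OG
open Set Filter Topology

/-- total oracles -/
def orc (f : ℕ → ℕ) : ℕ → Part ℕ := fun i => Part.some (f i)

/-- the labels of `ρ` after the string `τ` are given by `F` -/
def Cons (F : List ℕ → ℕ) (τ ρ : List ℕ) : Prop :=
  ∀ j < ρ.length, (ρ.getD j 0).unpair.2 = F (τ ++ ρ.take j ++ [(ρ.getD j 0).unpair.1])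

/-- the good strings -/
def Good (F : List ℕ → ℕ) (τ : List ℕ) : Prop := Cons F [] τ

/-- the closed set given by `F` -/
def PF (F : List ℕ → ℕ) : Set (ℕ → ℕ) :=
  {f | ∀ n, (f n).unpair.2 = F (seg f n ++ [(f n).unpair.1])}

theorem seg_take (f : ℕ → ℕ) {j n : ℕ} (h : j ≤ n) : (seg f n).take j = seg f j := by
  unfold seg
  rw [← List.map_take, List.take_range, min_eq_left h]

theorem seg_length (f : ℕ → ℕ) (n : ℕ) : (seg f n).length = n := by simp [seg]

theorem seg_getD (f : ℕ → ℕ) {j n : ℕ} (h : j < n) : (seg f n).getD j 0 = f j := by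
  rw [List.getD_eq_getElem?_getD, seg_getElem? f h]; rfl

theorem good_seg {F : List ℕ → ℕ} {f : ℕ → ℕ} (hf : f ∈ PF F) (n : ℕ) : Good F (seg f n) := by
  intro j hj
  rw [seg_length] at hj
  rw [seg_getD f hj, seg_take f hj.le]
  exact hf j

theorem mem_PF_of_good {F : List ℕ → ℕ} {f : ℕ → ℕ} (h : ∀ n, ∃ m, n ≤ m ∧ Good F (seg f m)) :
    f ∈ PF F := by
  intro n
  obtain ⟨m, hm, hg⟩ := h (n + 1)
  have := hg n (by rw [seg_length]; omega)
  rw [seg_getD f (by omega), seg_take f (by omega)] at this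
  exact this

theorem Good.append {F : List ℕ → ℕ} {τ ρ : List ℕ} (h1 : Good F τ) (h2 : Cons F τ ρ) :
    Good F (τ ++ ρ) := by
  intro j hj
  by_cases hjt : j < τ.length
  · have e1 : (τ ++ ρ).getD j 0 = τ.getD j 0 := by
      rw [List.getD_eq_getElem?_getD, List.getD_eq_getElem?_getD, List.getElem?_append_left hjt]
    have e2 : (τ ++ ρ).take j = τ.take j := by
      rw [List.take_append_of_le_length hjt.le]
    rw [e1, e2]
    exact h1 j hjt
  · push Not at hjt
    have e1 : (τ ++ ρ).getD j 0 = ρ.getD (j - τ.length) 0 := by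
      rw [List.getD_eq_getElem?_getD, List.getD_eq_getElem?_getD, List.getElem?_append_right hjt]
    have e2 : (τ ++ ρ).take j = τ ++ ρ.take (j - τ.length) := by
      rw [List.take_append, List.take_of_length_le hjt]
    rw [e1, e2, List.nil_append]
    refine h2 (j - τ.length) ?_
    rw [List.length_append] at hj
    omega

theorem isOpen_agree (f : ℕ → ℕ) (n : ℕ) : IsOpen {f' : ℕ → ℕ | ∀ i < n, f' i = f i} := by
  have : {f' : ℕ → ℕ | ∀ i < n, f' i = f i} = ⋂ i ∈ Finset.range n, {f' | f' i = f i} := by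
    ext f'; simp
  rw [this]
  refine isOpen_biInter_finset fun i _ => ?_
  have := (isOpen_discrete ({f i} : Set ℕ)).preimage (continuous_apply (A := fun _ : ℕ => ℕ) i)
  exact this

theorem seg_congr {f f' : ℕ → ℕ} {n : ℕ} (h : ∀ i < n, f' i = f i) : seg f' n = seg f n := by
  unfold seg
  refine List.map_congr_left fun i hi => h i (List.mem_range.1 hi)

theorem isClosed_PF (F : List ℕ → ℕ) : IsClosed (PF F) := by
  rw [← isOpen_compl_iff, isOpen_iff_mem_nhds]
  intro f hf
  have hf' : ∃ n, (f n).unpair.2 ≠ F (seg f n ++ [(f n).unpair.1]) := by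
    by_contra hcon
    push Not at hcon
    exact hf hcon
  obtain ⟨n, hn⟩ := hf'
  refine Filter.mem_of_superset ((isOpen_agree f (n + 1)).mem_nhds (fun i _ => rfl)) ?_
  intro f' hf' hmem
  apply hn
  have h1 := hmem n
  rw [hf' n (Nat.lt_succ_self n), seg_congr (fun i hi => hf' i (Nat.lt_succ_of_lt hi))] at h1
  exact h1

/-- A growing chain of strings has a limit. -/
theorem chain_limit (s : ℕ → List ℕ) (h1 : ∀ k, s k <+: s (k + 1)) (h2 : ∀ k, k ≤ (s k).length) :
    ∃ f : ℕ → ℕ, ∀ k, Ext (s k) f := by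
  have hm : ∀ i j, i ≤ j → s i <+: s j := by
    intro i j hij
    induction j with
    | zero => rw [Nat.le_zero.1 hij]
    | succ j ih =>
      rcases Nat.lt_or_eq_of_le hij with h | rfl
      · exact (ih (Nat.lt_succ_iff.1 h)).trans (h1 j)
      · exact List.prefix_rfl
  refine ⟨fun i => (s (i + 1)).getD i 0, fun k i v hv => ?_⟩
  obtain ⟨hi, hv'⟩ := List.getElem?_eq_some_iff.1 hv
  have hl : i < (s (i + 1)).length := h2 (i + 1)
  show (s (i + 1)).getD i 0 = v
  rw [List.getD_eq_getElem?_getD, List.getElem?_eq_getElem hl, Option.getD_some]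
  rcases le_total k (i + 1) with h | h
  · rw [← hv']; exact ((hm _ _ h).getElem hi).symm
  · rw [← hv']; exact ((hm _ _ h).getElem hl)

/-- `c` computes the first `k` bits of `q` from an extension of `τ` whose next entry has first
component `n`. -/
def Rk (c : OCode) (τ : List ℕ) (n : ℕ) (q : ℕ → Bool) (k : ℕ) : Prop :=
  ∃ a rest, ∀ i < k, (q i).toNat ∈ c.eval (lk (τ ++ Nat.pair n a :: rest)) i

/-- limit points -/
def IsLim (c : OCode) (τ : List ℕ) (q : ℕ → Bool) : Prop :=
  ∀ k N, ∃ n, N ≤ n ∧ Rk c τ n q k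

open Classical in
/-- a chosen limit point -/
noncomputable def qq (c : OCode) (τ : List ℕ) : ℕ → Bool :=
  if h : ∃ q, IsLim c τ q then h.choose else fun _ => false

theorem qq_spec {c : OCode} {τ : List ℕ} (h : ∃ q, IsLim c τ q) : IsLim c τ (qq c τ) := by
  unfold qq
  rw [dif_pos h]
  exact h.choose_spec

open Classical in
/-- the function computed by `d` from the chosen limit point -/
noncomputable def fd (c : OCode) (τ : List ℕ) (d : OCode) : ℕ → ℕ := fun n =>
  if h : (d.eval (orc fun i => (qq c τ i).toNat) n).Dom then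
    (d.eval (orc fun i => (qq c τ i).toNat) n).get h else 0

/-- the first kind of requirements -/
def U1 (c : OCode) (τ : List ℕ) (k : ℕ) : Set (List ℕ → ℕ) :=
  {F | IsLim c τ (qq c τ) → ∃ n a rest,
    (∀ i < k, (qq c τ i).toNat ∈ c.eval (lk (τ ++ Nat.pair n a :: rest)) i) ∧
    Cons F τ (Nat.pair n a :: rest)}

/-- the second kind of requirements -/
def U2 (f : ℕ → ℕ) : Set (List ℕ → ℕ) := {F | f ∉ PF F}

theorem isOpen_eval (L : List ℕ) (P : ℕ → Prop) : IsOpen {F : List ℕ → ℕ | P (F L)} :=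
  (isOpen_discrete {x | P x}).preimage (continuous_apply L)

theorem isOpen_Cons (τ ρ : List ℕ) : IsOpen {F : List ℕ → ℕ | Cons F τ ρ} := by
  have : {F : List ℕ → ℕ | Cons F τ ρ} = ⋂ j ∈ Finset.range ρ.length,
      {F | (ρ.getD j 0).unpair.2 = F (τ ++ ρ.take j ++ [(ρ.getD j 0).unpair.1])} := by
    ext F; simp [Cons]
  rw [this]
  exact isOpen_biInter_finset fun j _ => isOpen_eval _ _

theorem isOpen_U1 (c : OCode) (τ : List ℕ) (k : ℕ) : IsOpen (U1 c τ k) := by
  by_cases h : IsLim c τ (qq c τ)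
  · have : U1 c τ k = ⋃ n, ⋃ a, ⋃ rest, {F : List ℕ → ℕ |
        (∀ i < k, (qq c τ i).toNat ∈ c.eval (lk (τ ++ Nat.pair n a :: rest)) i) ∧
        Cons F τ (Nat.pair n a :: rest)} := by
      ext F; simp [U1, h]
    rw [this]
    refine isOpen_iUnion fun n => isOpen_iUnion fun a => isOpen_iUnion fun rest => ?_
    by_cases h2 : ∀ i < k, (qq c τ i).toNat ∈ c.eval (lk (τ ++ Nat.pair n a :: rest)) i
    · have : {F : List ℕ → ℕ | (∀ i < k, (qq c τ i).toNat ∈
          c.eval (lk (τ ++ Nat.pair n a :: rest)) i) ∧ Cons F τ (Nat.pair n a :: rest)} =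
          {F | Cons F τ (Nat.pair n a :: rest)} := by
        ext F; exact ⟨fun h => h.2, fun h => ⟨h2, h⟩⟩
      rw [this]
      exact isOpen_Cons _ _
    · have : {F : List ℕ → ℕ | (∀ i < k, (qq c τ i).toNat ∈
          c.eval (lk (τ ++ Nat.pair n a :: rest)) i) ∧ Cons F τ (Nat.pair n a :: rest)} = ∅ := by
        ext F; simp only [Set.mem_ofPred_eq, mem_empty_iff_false, iff_false]
        exact fun h => h2 h.1
      rw [this]
      exact isOpen_empty
  · have : U1 c τ k = univ := by
      ext F; simp [U1, h]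
    rw [this]
    exact isOpen_univ

theorem isOpen_U2 (f : ℕ → ℕ) : IsOpen (U2 f) := by
  have : U2 f = ⋃ n, {F : List ℕ → ℕ | (f n).unpair.2 ≠ F (seg f n ++ [(f n).unpair.1])} := by
    ext F; simp [U2, PF]
  rw [this]
  exact isOpen_iUnion fun n => isOpen_eval _ _

/-- density by finite conditions -/
theorem dense_of (U : Set (List ℕ → ℕ)) (h : ∀ (I : Finset (List ℕ)) (F0 : List ℕ → ℕ),
    ∃ F ∈ U, ∀ L ∈ I, F L = F0 L) : Dense U := by
  rw [dense_iff_inter_open]
  rintro W hW ⟨F0, hF0⟩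
  obtain ⟨I, u, h1, h2⟩ := isOpen_pi_iff.1 hW F0 hF0
  obtain ⟨F, hF, hFI⟩ := h I F0
  refine ⟨F, h2 ?_, hF⟩
  intro L hL
  rw [hFI L hL]
  exact (h1 L hL).2

theorem dense_U2 (f : ℕ → ℕ) : Dense (U2 f) := by
  classical
  refine dense_of _ fun I F0 => ?_
  let n : ℕ := I.sup List.length
  let L0 : List ℕ := seg f n ++ [(f n).unpair.1]
  have hL0 : L0 ∉ I := by
    intro h
    have h1 : L0.length ≤ n := Finset.le_sup (f := List.length) h
    simp [L0, seg_length] at h1
  refine ⟨fun L => if L = L0 then (f n).unpair.2 + 1 else F0 L, ?_, ?_⟩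
  · intro hmem
    have h1 := hmem n
    have h2 : (f n).unpair.2 = (f n).unpair.2 + 1 := by
      refine h1.trans ?_
      exact if_pos rfl
    omega
  · intro L hL
    have : L ≠ L0 := fun h => hL0 (h ▸ hL)
    exact if_neg this

theorem dense_U1 (c : OCode) (τ : List ℕ) (k : ℕ) : Dense (U1 c τ k) := by
  classical
  refine dense_of _ fun I F0 => ?_
  by_cases h : IsLim c τ (qq c τ)
  · let N : ℕ := (I.sup fun L => L.sum) + 1
    obtain ⟨n, hn, a, rest, hq⟩ := h k N
    let ρ : List ℕ := Nat.pair n a :: rest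
    have hbig : ∀ L ∈ I, ∀ x ∈ L, x < n := by
      intro L hL x hx
      have h1 : L.sum ≤ I.sup fun L => L.sum := Finset.le_sup (f := fun L : List ℕ => L.sum) hL
      have h2 : x ≤ L.sum := List.single_le_sum (fun _ _ => Nat.zero_le _) x hx
      omega
    let F : List ℕ → ℕ := fun L =>
      if L.length - τ.length - 1 < ρ.length ∧
        L = τ ++ ρ.take (L.length - τ.length - 1) ++ [(ρ.getD (L.length - τ.length - 1) 0).unpair.1]
      then (ρ.getD (L.length - τ.length - 1) 0).unpair.2 else F0 L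
    refine ⟨F, fun _ => ⟨n, a, rest, hq, ?_⟩, ?_⟩
    · intro j hj
      have hj' : j < ρ.length := hj
      have hlen : (τ ++ ρ.take j ++ [(ρ.getD j 0).unpair.1]).length - τ.length - 1 = j := by
        simp only [List.length_append, List.length_take, List.length_cons, List.length_nil]
        omega
      show (ρ.getD j 0).unpair.2 = F (τ ++ ρ.take j ++ [(ρ.getD j 0).unpair.1])
      have hF : F (τ ++ ρ.take j ++ [(ρ.getD j 0).unpair.1]) = (ρ.getD j 0).unpair.2 := by
        simp only [F]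
        rw [hlen, if_pos ⟨hj', rfl⟩]
      exact hF.symm
    · intro L hL
      simp only [F]
      refine if_neg ?_
      rintro ⟨hl, hL'⟩
      set j := L.length - τ.length - 1 with hj
      rcases Nat.eq_zero_or_pos j with h0 | hpos
      · have : n ∈ L := by
          rw [hL', h0]
          simp [ρ]
        exact absurd (hbig L hL n this) (lt_irrefl n)
      · have : Nat.pair n a ∈ L := by
          rw [hL']
          obtain ⟨j', hj'⟩ := Nat.exists_eq_succ_of_ne_zero (Nat.pos_iff_ne_zero.1 hpos)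
          rw [hj']
          simp [ρ]
        have h3 := hbig L hL _ this
        have h4 := Nat.left_le_pair n a
        omega
  · exact ⟨F0, fun h' => absurd h' h, fun _ _ => rfl⟩

theorem exists_F : ∃ F : List ℕ → ℕ, (∀ c τ k, F ∈ U1 c τ k) ∧ ∀ c τ d, F ∈ U2 (fd c τ d) := by
  have hB : BaireSpace (List ℕ → ℕ) := by
    let := TopologicalSpace.upgradeIsCompletelyMetrizable (List ℕ → ℕ)
    infer_instance
  let U : (OCode × List ℕ × ℕ) ⊕ (OCode × List ℕ × OCode) → Set (List ℕ → ℕ) := fun i =>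
    match i with
    | Sum.inl p => U1 p.1 p.2.1 p.2.2
    | Sum.inr p => U2 (fd p.1 p.2.1 p.2.2)
  have h1 : ∀ i, IsOpen (U i) := by
    rintro (p | p)
    · exact isOpen_U1 _ _ _
    · exact isOpen_U2 _
  have h2 : ∀ i, Dense (U i) := by
    rintro (p | p)
    · exact dense_U1 _ _ _
    · exact dense_U2 _
  obtain ⟨F, hF⟩ := (dense_iInter_of_isOpen h1 h2).nonempty
  rw [mem_iInter] at hF
  exact ⟨F, fun c τ k => hF (Sum.inl (c, τ, k)), fun c τ d => hF (Sum.inr (c, τ, d))⟩

/-- `c` computes a member of `Q` from `f` -/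
def Into (Q : Set (ℕ → Bool)) (c : OCode) (f : ℕ → ℕ) : Prop :=
  ∃ y ∈ Q, ∀ n, (y n).toNat ∈ c.eval (orc f) n

theorem exists_node (F : List ℕ → ℕ) (Q : Set (ℕ → Bool))
    (h : ∀ f ∈ PF F, ∃ c, Into Q c f) :
    ∃ c τ, Good F τ ∧ ∀ τ', τ <+: τ' → Good F τ' → ∃ f ∈ PF F, Ext τ' f ∧ Into Q c f := by
  by_contra hcon
  push Not at hcon
  have hne : Nonempty OCode := ⟨.zero⟩
  obtain ⟨en, hen⟩ := exists_surjective_nat OCode
  have hgrow : ∀ (τ : {τ : List ℕ // Good F τ}) (k : ℕ), ∃ τ' : {τ : List ℕ // Good F τ},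
      τ.1 <+: τ'.1 ∧ τ.1.length < τ'.1.length ∧
      ∀ f ∈ PF F, Ext τ'.1 f → ¬ Into Q (en k) f := by
    rintro ⟨τ, hτ⟩ k
    obtain ⟨τ1, h1, h2, h3⟩ := hcon (en k) τ hτ
    have h4 : Good F (τ1 ++ [Nat.pair 0 (F (τ1 ++ [0]))]) := by
      refine h2.append ?_
      intro j hj
      have : j = 0 := by simp at hj; exact hj
      subst this
      simp
    refine ⟨⟨_, h4⟩, h1.trans (List.prefix_append _ _), ?_, ?_⟩
    · have := h1.length_le
      simp; omega
    · intro f hf hE
      exact h3 f hf hE.of_append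
  choose g hg1 hg2 hg3 using hgrow
  have hnil : Good F [] := by intro j hj; simp at hj
  let s : ℕ → {τ : List ℕ // Good F τ} := fun k =>
    Nat.rec (motive := fun _ => {τ : List ℕ // Good F τ}) ⟨[], hnil⟩ (fun k τ => g τ k) k
  have hs : ∀ k, s (k + 1) = g (s k) k := fun k => rfl
  have hlen : ∀ k, k ≤ (s k).1.length := by
    intro k
    induction k with
    | zero => exact Nat.zero_le _
    | succ k ih =>
      have := hg2 (s k) k
      rw [hs]; omega
  obtain ⟨f, hf⟩ := chain_limit (fun k => (s k).1) (fun k => by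
    show (s k).1 <+: (s (k + 1)).1
    rw [hs]; exact hg1 _ _) hlen
  have hfP : f ∈ PF F := by
    refine mem_PF_of_good fun n => ⟨(s n).1.length, hlen n, ?_⟩
    rw [← ext_eq_seg (hf n)]
    exact (s n).2
  obtain ⟨c, hc⟩ := h f hfP
  obtain ⟨k, rfl⟩ := hen c
  refine hg3 (s k) k f hfP ?_ hc
  have := hf (k + 1)
  rw [hs] at this
  exact this

theorem exists_lim {F : List ℕ → ℕ} {Q : Set (ℕ → Bool)} {c : OCode} {τ : List ℕ}
    (hτ : Good F τ)
    (h : ∀ τ', τ <+: τ' → Good F τ' → ∃ f ∈ PF F, Ext τ' f ∧ Into Q c f) :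
    ∃ q, IsLim c τ q := by
  have h1 : ∀ n, ∃ y : ℕ → Bool, ∀ k, Rk c τ n y k := by
    intro n
    have h4 : Good F (τ ++ [Nat.pair n (F (τ ++ [n]))]) := by
      refine hτ.append ?_
      intro j hj
      have : j = 0 := by simp at hj; exact hj
      subst this
      simp
    obtain ⟨f, hf, hE, y, hy, hyc⟩ := h _ (List.prefix_append _ _) h4
    refine ⟨y, fun k => ?_⟩
    -- a common use for the first `k` values
    have h5 : ∃ m, ∀ i < k, (y i).toNat ∈ c.eval (lk (seg f m)) i := by
      induction k with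
      | zero => exact ⟨0, fun i hi => absurd hi (Nat.not_lt_zero i)⟩
      | succ k ih =>
        obtain ⟨m, hm⟩ := ih
        obtain ⟨m', hm'⟩ := eval_use (hyc k)
        refine ⟨max m m', fun i hi => ?_⟩
        rcases Nat.lt_succ_iff_lt_or_eq.1 hi with hi' | rfl
        · obtain ⟨ρ, hρ⟩ := seg_append f (le_max_left m m')
          rw [hρ]
          exact eval_mono_append (hm i hi')
        · exact hm' _ (le_max_right _ _)
    obtain ⟨m, hm⟩ := h5
    have hl : (τ ++ [Nat.pair n (F (τ ++ [n]))]).length = τ.length + 1 := by simp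
    have h6 : seg f (max m (τ.length + 1)) = seg f (τ.length + 1) ++
        (seg f (max m (τ.length + 1))).drop (τ.length + 1) := by
      conv_lhs => rw [← List.take_append_drop (τ.length + 1) (seg f (max m (τ.length + 1)))]
      rw [seg_take f (le_max_right _ _)]
    have h7 : seg f (τ.length + 1) = τ ++ [Nat.pair n (F (τ ++ [n]))] := by
      have := ext_eq_seg hE
      rw [hl] at this
      exact this.symm
    refine ⟨F (τ ++ [n]), (seg f (max m (τ.length + 1))).drop (τ.length + 1), fun i hi => ?_⟩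
    have h8 : (y i).toNat ∈ c.eval (lk (seg f (max m (τ.length + 1)))) i := by
      obtain ⟨ρ, hρ⟩ := seg_append f (le_max_left m (τ.length + 1))
      rw [hρ]
      exact eval_mono_append (hm i hi)
    rw [h6, h7] at h8
    simpa using h8
  choose y hy using h1
  obtain ⟨q, φ, hφ, hlim⟩ := CompactSpace.tendsto_subseq y
  refine ⟨q, fun k N => ?_⟩
  have hopen : IsOpen {y' : ℕ → Bool | ∀ i < k, y' i = q i} := by
    have : {y' : ℕ → Bool | ∀ i < k, y' i = q i} = ⋂ i ∈ Finset.range k, {y' | y' i = q i} := by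
      ext y'; simp
    rw [this]
    refine isOpen_biInter_finset fun i _ => ?_
    have := (isOpen_discrete ({q i} : Set Bool)).preimage
      (continuous_apply (A := fun _ : ℕ => Bool) i)
    exact this
  have hev := hlim.eventually (hopen.mem_nhds (fun i _ => rfl))
  obtain ⟨j0, hj0⟩ := eventually_atTop.1 hev
  have hj := hj0 (max j0 N) (le_max_left _ _)
  refine ⟨φ (max j0 N), le_trans (le_max_right _ _) (hφ.le_apply), ?_⟩
  obtain ⟨a, rest, ha⟩ := hy (φ (max j0 N)) k
  refine ⟨a, rest, fun i hi => ?_⟩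
  have h9 := hj i hi
  have h10 := ha i hi
  have h11 : y (φ (max j0 N)) i = q i := h9
  rw [h11] at h10
  exact h10

theorem main : ∃ P : Set (ℕ → ℕ), IsClosed P ∧
      ∀ Q : Set (ℕ → Bool), IsClosed Q →
        ¬ ((∀ x ∈ P, ∃ y ∈ Q,
              TuringReducible (PFun.lift (fun n => (y n).toNat)) (PFun.lift x)) ∧
           (∀ y ∈ Q, ∃ x ∈ P,
              TuringReducible (PFun.lift x) (PFun.lift (fun n => (y n).toNat)))) := by
  obtain ⟨F, hF1, hF2⟩ := exists_F
  refine ⟨PF F, isClosed_PF F, ?_⟩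
  rintro Q hQ ⟨hPQ, hQP⟩
  have hinto : ∀ f ∈ PF F, ∃ c, Into Q c f := by
    intro f hf
    obtain ⟨y, hy, hred⟩ := hPQ f hf
    obtain ⟨c, hc⟩ := exists_code (RecursiveIn.iff_nat.1 hred)
    refine ⟨c, y, hy, fun n => ?_⟩
    have : c.eval (orc f) n = Part.some (y n).toNat := congrFun hc n
    rw [this]
    exact Part.mem_some _
  obtain ⟨c, τ, hτ, hnode⟩ := exists_node F Q hinto
  have hlim := qq_spec (exists_lim hτ hnode)
  have hqQ : qq c τ ∈ Q := by
    rw [← hQ.closure_eq, mem_closure_iff]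
    intro W hW hqW
    obtain ⟨I, u, h1, h2⟩ := isOpen_pi_iff.1 hW _ hqW
    let k : ℕ := I.sup id + 1
    obtain ⟨n, a, rest, h3, h4⟩ := hF1 c τ k hlim
    obtain ⟨f, hf, hE, y, hy, hyc⟩ := hnode _ (List.prefix_append _ _) (hτ.append h4)
    refine ⟨y, h2 ?_, hy⟩
    intro i hi
    have hik : i < k := Nat.lt_succ_of_le (Finset.le_sup (f := id) hi)
    have h5 := eval_mono_ext hE (h3 i hik)
    have h6 := hyc i
    have h7 : (y i).toNat = (qq c τ i).toNat := Part.mem_unique h6 h5
    have h8 : y i = qq c τ i := by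
      cases hy1 : y i <;> cases hy2 : qq c τ i <;> rw [hy1, hy2] at h7 <;> simp at h7 ⊢
    rw [h8]
    exact (h1 i hi).2
  obtain ⟨x, hx, hred⟩ := hQP _ hqQ
  obtain ⟨d, hd⟩ := exists_code (RecursiveIn.iff_nat.1 hred)
  have hfd : fd c τ d = x := by
    funext n
    have h1 : d.eval (orc fun i => (qq c τ i).toNat) n = Part.some (x n) := congrFun hd n
    unfold fd
    have hdom : (d.eval (orc fun i => (qq c τ i).toNat) n).Dom := by
      rw [h1]; trivial
    rw [dif_pos hdom]
    exact Part.mem_unique (Part.get_mem hdom) (h1 ▸ Part.mem_some _)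
  have := hF2 c τ d
  rw [hfd] at this
  exact this hx

end Pool.Agent.H448R3.Mu
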