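import Pool.Agent.H448R3.Er

set_option autoImplicit false

/-! If `a` is a limit (in the sense of upper density) of sequences not computing `c`, then some
sequence coarsely similar to `a` does not compute `c`. -/

namespace Pool.Agent.H448R3

open Helper743

/-- agreement of a string with the sequence `a` up to `1/N` beyond `n` -/
def Close (a : ℕ → ℕ) (N : ℕ) (τ : List Bool) (n : ℕ) : Prop :=
  ∀ m, n ≤ m → m ≤ τ.length → er (tf τ) a m * N ≤ m

/-- the functional `ev` gives a wrong value on `τ` -/
def Wrong (ev : List ℕ → ℕ → Option ℕ) (c : ℕ → ℕ) (τ : List Bool) : Prop :=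
  ∃ i y, ev (τ.map bit) i = some y ∧ y ≠ c i

theorem compute (ev : List ℕ → ℕ → Option ℕ) (hev : Computable₂ ev) (c : ℕ → ℕ)
    (a : ℕ → ℕ) (σ : List Bool) (M : ℕ) (hσ : er (tf σ) a σ.length * (5 * M) ≤ σ.length)
    (h1 : ∀ τ, σ <+: τ → Close a M τ σ.length → ¬ Wrong ev c τ)
    (h2 : ∀ i, ∃ τ, σ <+: τ ∧ Close a (5 * M) τ σ.length ∧ ev (τ.map bit) i ≠ none)
    (hmono : ∀ σ τ x y, σ <+: τ → ev σ x = some y → ev τ x = some y)
    (b : ℕ → Bool) (hab : ∀ j, a j = bit (b j))
    (x : ℕ → Bool) (m0 : ℕ) (hx : ∀ m, m0 ≤ m → er (fun j => bit (x j)) a m * (5 * M) ≤ m) :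
    TR c (fun j => bit (x j)) := by
  classical
  set l := σ.length with hl
  -- the modification
  let x' : ℕ → Bool := fun j => if j < l then σ.getD j false else if j < m0 then b j else x j
  let g : ℕ → ℕ := fun j => bit (x' j)
  have hgx : ∀ j, j < l → g j = tf σ j := fun j hj => by
    simp only [g, x', if_pos hj]; rfl
  have hga : ∀ j, l ≤ j → j < m0 → g j = a j := fun j h1 h2 => by
    simp only [g, x', if_neg (not_lt.2 h1), if_pos h2, hab]
  have hgx2 : ∀ j, l ≤ j → m0 ≤ j → g j = bit (x j) := fun j h1 h2 => by
    simp only [g, x', if_neg (not_lt.2 h1), if_neg (not_lt.2 h2)]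
  have herr : ∀ m, l ≤ m → er g a m * (5 * M) ≤ 2 * m := by
    intro m hm
    have e1 : er g a l = er (tf σ) a l := er_congr (fun j hj => hgx j hj) (fun _ _ => rfl)
    by_cases hm0 : m0 ≤ m
    · have e2 : er g a m ≤ er g a l + er (fun j => bit (x j)) a m := by
        refine er_le_add hm ?_
        intro j hj1 hj2
        by_cases hj3 : j < m0
        · exact Or.inr (hga j hj1 hj3)
        · exact Or.inl (hgx2 j hj1 (not_lt.1 hj3))
      calc er g a m * (5 * M) ≤ (er g a l + er (fun j => bit (x j)) a m) * (5 * M) :=
            Nat.mul_le_mul_right _ e2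
        _ = er (tf σ) a l * (5 * M) + er (fun j => bit (x j)) a m * (5 * M) := by
            rw [Nat.add_mul, e1]
        _ ≤ l + m := Nat.add_le_add hσ (hx m hm0)
        _ ≤ 2 * m := by omega
    · have e2 : er g a m = er g a l := er_const hm fun j h3 h4 => hga j h3 (by omega)
      rw [e2, e1]
      exact le_trans hσ (by omega)
  have hTR : TR g (fun j => bit (x j)) := by
    have hb : ∃ T : List ℕ, ∀ j, g j = if j < max l m0 then T.getD j 0 else bit (x j) := by
      refine ⟨pre g (max l m0), fun j => ?_⟩
      by_cases hj : j < max l m0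
      · rw [if_pos hj, List.getD_eq_getElem?_getD, pre_getElem?, if_pos hj]; rfl
      · rw [if_neg hj]
        have := not_lt.1 hj
        exact hgx2 j (le_trans (le_max_left _ _) this) (le_trans (le_max_right _ _) this)
    obtain ⟨T, hT⟩ := hb
    have hc : Computable fun z : ℕ => bif decide (z.unpair.1 < max l m0) then
        T.getD z.unpair.1 0 else z.unpair.2 := by
      have u1 : Computable fun z : ℕ => z.unpair.1 := Computable.fst.comp Computable.unpair
      have u2 : Computable fun z : ℕ => z.unpair.2 := Computable.snd.comp Computable.unpair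
      exact Computable.cond (clt u1 (Computable.const _))
        ((Primrec.list_getD 0).to_comp.comp (Computable.const T) u1) u2
    have h3 := (Helper743.Computable.recT (O := {((fun j => bit (x j) : ℕ → ℕ) : ℕ →. ℕ)}) hc).comp
      (RecT.pair (Helper743.Computable.recT Computable.id) (TR.refl (fun j => bit (x j))))
    refine Nat.RecursiveIn.of_eq h3 ?_
    intro j
    congr 1
    simp only [Nat.unpair_pair, id]
    rw [hT j]
    by_cases hj : j < max l m0
    · rw [if_pos hj, decide_eq_true hj]; rfl
    · rw [if_neg hj, decide_eq_false hj]; rfl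
  refine TR.trans ?_ hTR
  -- the search
  let chk : List ℕ → List Bool → Bool := fun ξ τ =>
    decide (σ <+: τ) && (!(decide (ξ.length < τ.length)) && ball (τ.length + 1) fun m =>
      decide (m < l) || !(decide (3 * m < er (tf τ) (fun j => ξ.getD j 0) m * (5 * M))))
  let p : List ℕ → ℕ → ℕ → Option ℕ := fun ξ i w =>
    (Encodable.decode (α := List Bool) w).bind fun τ =>
      bif chk ξ τ then ev (τ.map bit) i else none
  have hchk : Computable₂ chk := by
    have t1 : Computable fun q : List ℕ × List Bool => decide (σ <+: q.2) :=
      bprefix_dec.comp (Computable.const σ) Computable.snd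
    have len1 : Computable fun q : List ℕ × List Bool => q.1.length :=
      Computable.list_length.comp Computable.fst
    have len2 : Computable fun q : List ℕ × List Bool => q.2.length :=
      Computable.list_length.comp Computable.snd
    have t2 : Computable fun q : List ℕ × List Bool => !(decide (q.1.length < q.2.length)) :=
      cnot (clt len1 len2)
    have t3 : Computable₂ fun (q : List ℕ × List Bool) (m : ℕ) =>
        er (tf q.2) (fun j => q.1.getD j 0) m * (5 * M) := by
      have a1 : Computable₂ fun (q : (List ℕ × List Bool) × ℕ) (j : ℕ) => tf q.1.2 j :=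
        tf_comp (Computable.snd.comp (Computable.fst.comp Computable.fst)) Computable.snd
      have a2 : Computable₂ fun (q : (List ℕ × List Bool) × ℕ) (j : ℕ) => q.1.1.getD j 0 :=
        (Primrec.list_getD 0).to_comp.comp
          (Computable.fst.comp (Computable.fst.comp Computable.fst)) Computable.snd
      exact Primrec.nat_mul.to_comp.comp (er_comp a1 a2 Computable.snd) (Computable.const _)
    have t4 : Computable₂ fun (q : List ℕ × List Bool) (m : ℕ) =>
        (decide (m < l) || !(decide (3 * m < er (tf q.2) (fun j => q.1.getD j 0) m * (5 * M)))) :=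
      cor (clt Computable.snd (Computable.const l))
        (cnot (clt (Primrec.nat_mul.to_comp.comp (Computable.const 3) Computable.snd) t3))
    exact cand t1 (cand t2 (ball_comp (Computable.succ.comp len2) t4))
  have hp : Computable (fun q : (List ℕ × ℕ) × ℕ => p q.1.1 q.1.2 q.2) := by
    refine Computable.option_bind (Computable.decode.comp Computable.snd) ?_
    have c1 : Computable fun q : ((List ℕ × ℕ) × ℕ) × List Bool => chk q.1.1.1 q.2 :=
      hchk.comp (Computable.fst.comp (Computable.fst.comp Computable.fst)) Computable.snd
    have c2 : Computable fun q : ((List ℕ × ℕ) × ℕ) × List Bool =>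
        ev (q.2.map bit) q.1.1.2 :=
      hev.comp (map_bit_comp Computable.snd)
        (Computable.snd.comp (Computable.fst.comp Computable.fst))
    exact Computable.cond c1 c2 (Computable.const none)
  have hpre : ∀ n (τ : List Bool) m, m ≤ τ.length → τ.length ≤ (pre g n).length →
      er (tf τ) (fun j => (pre g n).getD j 0) m = er (tf τ) g m := by
    intro n τ m h3 h4
    refine er_congr (fun _ _ => rfl) fun j hj => ?_
    have : j < n := by
      have : (pre g n).length = n := by simp [pre]
      omega
    rw [List.getD_eq_getElem?_getD, pre_getElem?, if_pos this]; rfl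
  refine cert (TR.refl g) p hp c ?_ ?_
  · intro i
    obtain ⟨τ, h3, h4, h5⟩ := h2 i
    refine ⟨τ.length, Encodable.encode τ, ?_⟩
    have hlen : (pre g τ.length).length = τ.length := by simp [pre]
    have hc : chk (pre g τ.length) τ = true := by
      simp only [chk, Bool.and_eq_true, decide_eq_true_eq, Bool.not_eq_true',
        decide_eq_false_iff_not, ball_iff, Bool.or_eq_true]
      refine ⟨h3, by omega, fun m hm => ?_⟩
      by_cases hml : m < l
      · exact Or.inl hml
      · right
        push Not at hml
        rw [hpre _ _ _ (by omega) (by omega)]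
        have e1 := er_triangle (tf τ) a g m
        have e2 := h4 m hml (by omega)
        have e3 := herr m hml
        rw [er_comm] at e3
        have e4 : er (tf τ) g m * (5 * M) ≤ (er (tf τ) a m + er a g m) * (5 * M) :=
          Nat.mul_le_mul_right _ e1
        rw [Nat.add_mul] at e4
        omega
    simp only [p, Encodable.encodek, Option.bind_some, hc, cond_true]
    exact Option.isSome_iff_ne_none.2 h5
  · intro i n w y hy
    simp only [p] at hy
    rw [Option.bind_eq_some_iff] at hy
    obtain ⟨τ, _, h4⟩ := hy
    cases hc : chk (pre g n) τ with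
    | false => rw [hc] at h4; simp at h4
    | true =>
      rw [hc, cond_true] at h4
      simp only [chk, Bool.and_eq_true, decide_eq_true_eq, Bool.not_eq_true',
        decide_eq_false_iff_not, ball_iff, Bool.or_eq_true] at hc
      obtain ⟨h5, h6, h7⟩ := hc
      by_contra hne
      refine h1 τ h5 ?_ ⟨i, y, h4, hne⟩
      intro m hm1 hm2
      rcases h7 m (by omega) with h8 | h8
      · exact absurd hm1 (not_le.2 h8)
      · rw [hpre _ _ _ hm2 (by omega)] at h8
        have e1 := er_triangle (tf τ) g a m
        have e3 := herr m hm1
        have e4 : er (tf τ) a m * (5 * M) ≤ (er (tf τ) g m + er g a m) * (5 * M) :=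
          Nat.mul_le_mul_right _ e1
        rw [Nat.add_mul] at e4
        have e5 : er (tf τ) a m * (5 * M) = 5 * (er (tf τ) a m * M) := by ring
        omega

end Pool.Agent.H448R3
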