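import Pool.Agent.H448R3.Near

set_option autoImplicit false

/-! The construction of a coarsely similar sequence avoiding an upper cone. -/

namespace Pool.Agent.H448R3

open Helper743

/-- monotone functionals -/
def Mono (ev : List ℕ → ℕ → Option ℕ) : Prop :=
  ∀ σ τ x y, σ <+: τ → ev σ x = some y → ev τ x = some y

theorem Wrong.mono {ev : List ℕ → ℕ → Option ℕ} {c : ℕ → ℕ} {σ τ : List Bool} (hm : Mono ev)
    (h : σ <+: τ) (hw : Wrong ev c σ) : Wrong ev c τ := by
  obtain ⟨i, y, h1, h2⟩ := hw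
  exact ⟨i, y, hm _ _ _ _ (h.map bit) h1, h2⟩

/-- extension by copying -/
theorem copy_ext (a : ℕ → ℕ) (b : ℕ → Bool) (hab : ∀ j, a j = bit (b j)) (τ : List Bool) (K : ℕ) :
    ∃ σ', τ <+: σ' ∧ τ.length < σ'.length ∧ er (tf σ') a σ'.length * K ≤ σ'.length ∧
      ∀ n N, n ≤ τ.length → Close a N τ n → Close a N σ' n := by
  classical
  let y : ℕ → Bool := fun j => if j < τ.length then τ.getD j false else b j
  set L := max (τ.length + 1) (er (tf τ) a τ.length * K) with hL
  have hτ : τ = bseg y τ.length := eq_bseg fun j hj => by simp only [y, if_pos hj]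
  have hpre : τ <+: bseg y L := by
    conv_lhs => rw [hτ]
    exact bseg_prefix y (le_trans (Nat.le_succ _) (le_max_left _ _))
  have hlen : (bseg y L).length = L := bseg_length y L
  have her : ∀ m, τ.length ≤ m → m ≤ L → er (tf (bseg y L)) a m = er (tf τ) a τ.length := by
    intro m h1 h2
    have e1 : er (tf (bseg y L)) a m = er (tf (bseg y L)) a τ.length := by
      refine er_const h1 fun j h3 h4 => ?_
      rw [tf_bseg y (by omega), hab]
      simp only [y, if_neg (not_lt.2 h3)]
    rw [e1]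
    exact er_congr (fun j hj => tf_of_prefix hpre hj) (fun _ _ => rfl)
  refine ⟨bseg y L, hpre, ?_, ?_, ?_⟩
  · rw [hlen]; exact lt_of_lt_of_le (Nat.lt_succ_self _) (le_max_left _ _)
  · rw [hlen, her L (le_trans (Nat.le_succ _) (le_max_left _ _)) (le_refl _)]
    exact le_max_right _ _
  · intro n N hn hcl m h1 h2
    rw [hlen] at h2
    by_cases hm : m ≤ τ.length
    · have e1 : er (tf (bseg y L)) a m = er (tf τ) a m :=
        er_congr (fun j hj => tf_of_prefix hpre (by omega)) (fun _ _ => rfl)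
      rw [e1]; exact hcl m h1 hm
    · push Not at hm
      rw [her m hm.le h2]
      exact le_trans (hcl τ.length hn (le_refl _)) hm.le

theorem step (c : ℕ → ℕ) (a : ℕ → ℕ) (b : ℕ → Bool) (hab : ∀ j, a j = bit (b j))
    (H : ∀ N, ∃ (x : ℕ → Bool) (m0 : ℕ), ¬ TR c (fun j => bit (x j)) ∧
      ∀ m, m0 ≤ m → er (fun j => bit (x j)) a m * N ≤ m)
    (ev : List ℕ → ℕ → Option ℕ) (M : ℕ)
    (σ : List Bool) (hσ : er (tf σ) a σ.length * (5 * M) ≤ σ.length) :
    ∃ σ', σ <+: σ' ∧ σ.length < σ'.length ∧ Close a M σ' σ.length ∧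
      er (tf σ') a σ'.length * (5 * (5 * M)) ≤ σ'.length ∧
      (Computable₂ ev → Mono ev → Wrong ev c σ' ∨
        (Close a (5 * M) σ' σ.length ∧
          ∃ i, ∀ τ, σ <+: τ → Close a (5 * M) τ σ.length → ev (τ.map bit) i = none)) := by
  have hcl5 : Close a (5 * M) σ σ.length := by
    intro m h1 h2
    have : m = σ.length := le_antisymm h2 h1
    subst this
    exact hσ
  have hcl : Close a M σ σ.length := by
    intro m h1 h2
    have h3 := hcl5 m h1 h2
    have : er (tf σ) a m * M ≤ er (tf σ) a m * (5 * M) := Nat.mul_le_mul_left _ (by omega)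
    omega
  by_cases h1 : ∃ τ, σ <+: τ ∧ Close a M τ σ.length ∧ Wrong ev c τ
  · obtain ⟨τ, h2, h3, h4⟩ := h1
    obtain ⟨σ', h5, h6, h7, h8⟩ := copy_ext a b hab τ (5 * (5 * M))
    have hle := h2.length_le
    exact ⟨σ', h2.trans h5, by omega, h8 _ _ hle h3, h7, fun _ hm => Or.inl (h4.mono hm h5)⟩
  · obtain ⟨σ', h5, h6, h7, h8⟩ := copy_ext a b hab σ (5 * (5 * M))
    refine ⟨σ', h5, h6, h8 _ _ (le_refl _) hcl, h7, fun hev hm => Or.inr ?_⟩
    refine ⟨h8 _ _ (le_refl _) hcl5, ?_⟩
    by_contra hcon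
    push Not at hcon h1
    obtain ⟨x, m0, hx1, hx2⟩ := H (5 * M)
    exact hx1 (compute ev hev c a σ M hσ h1 (fun i => by
      obtain ⟨τ, h9, h10, h11⟩ := hcon i
      exact ⟨τ, h9, h10, h11⟩) hm b hab x m0 hx2)

/-- The main construction. -/
theorem exists_avoid (c : ℕ → ℕ) (b : ℕ → Bool)
    (H : ∀ N, ∃ (x : ℕ → Bool) (m0 : ℕ), ¬ TR c (fun j => bit (x j)) ∧
      ∀ m, m0 ≤ m → er (fun j => bit (x j)) (fun j => bit (b j)) m * N ≤ m) :
    ∃ z : ℕ → Bool, ¬ TR c (fun j => bit (z j)) ∧
      ∀ N, ∃ m0, ∀ m, m0 ≤ m → er (fun j => bit (z j)) (fun j => bit (b j)) m * N ≤ m := by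
  classical
  set a : ℕ → ℕ := fun j => bit (b j) with ha
  have hab : ∀ j, a j = bit (b j) := fun j => rfl
  obtain ⟨en, hen⟩ := exists_enum
  let St : ℕ → Type := fun k => {σ : List Bool // er (tf σ) a σ.length * (5 * 5 ^ k) ≤ σ.length}
  have hstep : ∀ (k : ℕ) (s : St k), ∃ s' : St (k + 1), s.1 <+: s'.1 ∧ s.1.length < s'.1.length ∧
      Close a (5 ^ k) s'.1 s.1.length ∧
      (Computable₂ (en k) → Mono (en k) → Wrong (en k) c s'.1 ∨
        (Close a (5 * 5 ^ k) s'.1 s.1.length ∧
          ∃ i, ∀ τ, s.1 <+: τ → Close a (5 * 5 ^ k) τ s.1.length → (en k) (τ.map bit) i = none)) := by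
    rintro k ⟨σ, hσ⟩
    obtain ⟨σ', h1, h2, h3, h4, h5⟩ := step c a b hab H (en k) (5 ^ k) σ hσ
    refine ⟨⟨σ', ?_⟩, h1, h2, h3, h5⟩
    have : 5 * 5 ^ (k + 1) = 5 * (5 * 5 ^ k) := by ring
    rw [this]; exact h4
  choose nx hn1 hn2 hn3 hn4 using hstep
  have h0 : er (tf []) a ([] : List Bool).length * (5 * 5 ^ 0) ≤ ([] : List Bool).length := by
    simp [er_zero]
  let s : ∀ k, St k := fun k => Nat.rec (motive := fun k => St k) ⟨[], h0⟩ (fun k s => nx k s) k
  have hs : ∀ k, s (k + 1) = nx k (s k) := fun k => rfl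
  have hpre : ∀ i j, i ≤ j → (s i).1 <+: (s j).1 := by
    intro i j hij
    induction j with
    | zero => rw [Nat.le_zero.1 hij]
    | succ j ih =>
      rcases Nat.lt_or_eq_of_le hij with h | rfl
      · refine (ih (Nat.lt_succ_iff.1 h)).trans ?_
        rw [hs]; exact hn1 j (s j)
      · exact List.prefix_rfl
  have hlen : ∀ k, k ≤ (s k).1.length := by
    intro k
    induction k with
    | zero => exact Nat.zero_le _
    | succ k ih =>
      have := hn2 k (s k)
      rw [hs]; omega
  let z : ℕ → Bool := fun j => (s (j + 1)).1.getD j false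
  have hz : ∀ k j, j < (s k).1.length → z j = (s k).1.getD j false := by
    intro k j hj
    have hl : j < (s (j + 1)).1.length := hlen (j + 1)
    show (s (j + 1)).1.getD j false = _
    rw [List.getD_eq_getElem?_getD, List.getD_eq_getElem?_getD, List.getElem?_eq_getElem hl,
      List.getElem?_eq_getElem hj]
    rw [Option.getD_some, Option.getD_some]
    rcases le_total k (j + 1) with h | h
    · exact ((hpre _ _ h).getElem hj).symm
    · exact ((hpre _ _ h).getElem hl)
  have hzs : ∀ k, (s k).1 = bseg z (s k).1.length := fun k => eq_bseg (hz k)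
  have herz : ∀ k m, m ≤ (s k).1.length → er (fun j => bit (z j)) a m = er (tf (s k).1) a m := by
    intro k m hm
    refine er_congr (fun j hj => ?_) (fun _ _ => rfl)
    show bit (z j) = bit _
    rw [hz k j (by omega)]
  -- closeness
  have hclose : ∀ k m, (s k).1.length ≤ m → er (fun j => bit (z j)) a m * 5 ^ k ≤ m := by
    intro k m hm
    have key : ∀ j, k ≤ j → ∀ m, (s k).1.length ≤ m → m ≤ (s j).1.length →
        er (fun j => bit (z j)) a m * 5 ^ k ≤ m := by
      intro j hkj
      induction j with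
      | zero =>
        intro m h1 h2
        have hk0 : k = 0 := Nat.le_zero.1 hkj
        subst hk0
        have hm' : m = (s 0).1.length := le_antisymm h2 h1
        have : (s 0).1.length = 0 := rfl
        rw [hm', this]
        simp [er_zero]
      | succ j ih =>
        intro m h1 h2
        rcases Nat.lt_or_eq_of_le hkj with h | rfl
        · by_cases h3 : m ≤ (s j).1.length
          · exact ih (Nat.lt_succ_iff.1 h) m h1 h3
          · push Not at h3
            have h4 := hn3 j (s j) m h3.le (by rw [← hs]; exact h2)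
            rw [← hs] at h4
            rw [herz (j + 1) m h2]
            have h5 : 5 ^ k ≤ 5 ^ j := Nat.pow_le_pow_right (by norm_num) (Nat.lt_succ_iff.1 h)
            exact le_trans (Nat.mul_le_mul_left _ h5) h4
        · have hm' : m = (s (j + 1)).1.length := le_antisymm h2 h1
          have h3 := (s (j + 1)).2
          rw [herz (j + 1) m h2, hm']
          have : er (tf (s (j + 1)).1) a (s (j + 1)).1.length * 5 ^ (j + 1) ≤
            er (tf (s (j + 1)).1) a (s (j + 1)).1.length * (5 * 5 ^ (j + 1)) :=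
            Nat.mul_le_mul_left _ (by omega)
          exact le_trans this h3
    exact key (max k m) (le_max_left _ _) m hm (le_trans (le_max_right k m) (hlen _))
  refine ⟨z, ?_, fun N => ?_⟩
  · intro hTR
    obtain ⟨ev, hev, hmono, hcor⟩ := use_principle _ _ hTR
    obtain ⟨k, hk⟩ := hen ev hev
    rcases hn4 k (s k) (hk ▸ hev) (hk ▸ hmono) with hw | ⟨h1, i, hi⟩
    · rw [← hs] at hw
      obtain ⟨i, y, h2, h3⟩ := hw
      rw [hk, hzs (k + 1), bseg_map] at h2
      have h4 : y ∈ (Part.some (c i) : Part ℕ) := (hcor i y).2 ⟨_, h2⟩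
      exact h3 (Part.mem_some_iff.1 h4)
    · obtain ⟨n, hn⟩ := (hcor i (c i)).1 (Part.mem_some _)
      have h2 := hi (bseg z (max n (s k).1.length)) (by
          conv_lhs => rw [hzs k]
          exact bseg_prefix z (le_max_right _ _)) (by
        intro m h3 h4
        rw [bseg_length] at h4
        have e1 : er (tf (bseg z (max n (s k).1.length))) a m = er (fun j => bit (z j)) a m :=
          er_congr (fun j hj => tf_bseg z (by omega)) (fun _ _ => rfl)
        rw [e1]
        by_cases h5 : m ≤ (s (k + 1)).1.length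
        · rw [herz (k + 1) m h5]
          have h6 := h1 m h3 (by rw [← hs]; exact h5)
          rw [← hs] at h6
          exact h6
        · push Not at h5
          have h6 := hclose (k + 1) m h5.le
          have : 5 * 5 ^ k = 5 ^ (k + 1) := by ring
          rw [this]; exact h6)
      rw [hk, bseg_map] at h2
      have h3 := hmono _ _ _ _ (pre_prefix (fun j => bit (z j)) (le_max_left n (s k).1.length)) hn
      rw [h2] at h3
      exact absurd h3 (by simp)
  · obtain ⟨k, hk⟩ : ∃ k, N ≤ 5 ^ k := ⟨N, (Nat.lt_pow_self (by norm_num)).le⟩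
    refine ⟨(s k).1.length, fun m hm => ?_⟩
    exact le_trans (Nat.mul_le_mul_left _ hk) (hclose k m hm)

end Pool.Agent.H448R3
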