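import Mathlib

set_option autoImplicit false

/-! Tools: bounded quantifiers, search, first hits (taken over from the file
`Results/MP_81a968_lc/LowIsoGeneric.lean` of the starting repository). -/

namespace Pool.Agent.H448R3

open Nat.Partrec (Code)


/-- bounded universal quantifier -/
def ball (n : ℕ) (q : ℕ → Bool) : Bool :=
  Nat.rec (motive := fun _ => Bool) true (fun k acc => acc && q k) n

theorem ball_iff (n : ℕ) (q : ℕ → Bool) : ball n q = true ↔ ∀ k < n, q k = true := by
  induction n with
  | zero => simp [ball]
  | succ n ih =>
    have : ball (n + 1) q = (ball n q && q n) := rfl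
    rw [this, Bool.and_eq_true, ih]
    constructor
    · rintro ⟨h1, h2⟩ k hk
      rcases Nat.lt_succ_iff_lt_or_eq.1 hk with h | h
      · exact h1 k h
      · exact h ▸ h2
    · intro h
      exact ⟨fun k hk => h k (Nat.lt_succ_of_lt hk), h n (Nat.lt_succ_self n)⟩

/-- bounded existential quantifier -/
def bex (n : ℕ) (q : ℕ → Bool) : Bool := !(ball n fun k => !(q k))

theorem bex_iff (n : ℕ) (q : ℕ → Bool) : bex n q = true ↔ ∃ k < n, q k = true := by
  unfold bex
  rw [Bool.not_eq_true', ← Bool.not_eq_true, ball_iff]
  push Not
  simp

section combinators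

variable {α : Type} [Primcodable α]

theorem ball_comp {g : α → ℕ} {q : α → ℕ → Bool}
    (hg : Computable g) (hq : Computable₂ q) : Computable fun a => ball (g a) (q a) := by
  have h1 : Computable fun p : α × ℕ × Bool => p.2.2 := Computable.snd.comp Computable.snd
  have h2 : Computable fun p : α × ℕ × Bool => q p.1 p.2.1 :=
    hq.comp Computable.fst (Computable.fst.comp Computable.snd)
  have h3 : Computable₂ fun (a : α) (p : ℕ × Bool) => p.2 && q a p.1 :=
    (Primrec.and.to_comp.comp h1 h2).to₂
  exact (Computable.nat_rec hg (Computable.const true) h3).of_eq fun a => rfl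

theorem search {q : α → ℕ → Bool} (hq : Computable₂ q)
    (H : ∀ a, ∃ n, q a n = true) : ∃ F : α → ℕ, Computable F ∧ ∀ a, q a (F a) = true := by
  classical
  have hP : ComputablePred (fun p : α × ℕ => q p.1 p.2 = true) :=
    Computable.computablePred (by
      have : Computable fun p : α × ℕ => q p.1 p.2 := hq
      simpa using this)
  exact ⟨_, Computable.find (P := fun a n => q a n = true) hP H, fun a => Nat.find_spec (H a)⟩

theorem cand {f g : α → Bool} (hf : Computable f) (hg : Computable g) :
    Computable fun a => f a && g a := Primrec.and.to_comp.comp hf hg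

theorem cor {f g : α → Bool} (hf : Computable f) (hg : Computable g) :
    Computable fun a => f a || g a := Primrec.or.to_comp.comp hf hg

theorem cnot {f : α → Bool} (hf : Computable f) : Computable fun a => !(f a) :=
  Primrec.not.to_comp.comp hf

theorem bex_comp {g : α → ℕ} {q : α → ℕ → Bool}
    (hg : Computable g) (hq : Computable₂ q) : Computable fun a => bex (g a) (q a) :=
  cnot (ball_comp hg (cnot hq).to₂)

theorem cbeqN {f g : α → ℕ} (hf : Computable f) (hg : Computable g) :
    Computable fun a => (f a == g a) := by
  have : Primrec₂ fun m n : ℕ => (m == n) := Primrec.beq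
  exact this.to_comp.comp hf hg

theorem cbeqB {f g : α → Bool} (hf : Computable f) (hg : Computable g) :
    Computable fun a => (f a == g a) := by
  have : Primrec₂ fun m n : Bool => (m == n) := Primrec.beq
  exact this.to_comp.comp hf hg

theorem ceqO {f g : α → Option ℕ} (hf : Computable f) (hg : Computable g) :
    Computable fun a => decide (f a = g a) := by
  have : Primrec₂ fun m n : Option ℕ => decide (m = n) := Primrec.eq.decide
  exact this.to_comp.comp hf hg

theorem cpair {f g : α → ℕ} (hf : Computable f) (hg : Computable g) :
    Computable fun a => Nat.pair (f a) (g a) := Primrec₂.natPair.to_comp.comp hf hg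

theorem clt {f g : α → ℕ} (hf : Computable f) (hg : Computable g) :
    Computable fun a => decide (f a < g a) := by
  have : Primrec₂ fun m n : ℕ => decide (m < n) := Primrec.nat_lt.decide
  exact this.to_comp.comp hf hg

end combinators


/-! ### First hits -/

/-- the value of `f` at the least `k < n` at which it is defined -/
def fs {β : Type} (f : ℕ → Option β) (n : ℕ) : Option β :=
  Nat.rec (motive := fun _ => Option β) none (fun k acc => Option.casesOn acc (f k) some) n

theorem fs_succ {β : Type} (f : ℕ → Option β) (n : ℕ) :
    fs f (n + 1) = Option.casesOn (fs f n) (f n) some := rfl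

theorem fs_mono {β : Type} {f : ℕ → Option β} {n m : ℕ} {y : β} (h : n ≤ m)
    (hy : fs f n = some y) : fs f m = some y := by
  induction m with
  | zero => rw [Nat.le_zero.1 h] at hy; exact hy
  | succ m ih =>
    rcases Nat.lt_or_eq_of_le h with h' | rfl
    · rw [fs_succ, ih (Nat.lt_succ_iff.1 h')]
    · exact hy

theorem fs_some {β : Type} {f : ℕ → Option β} {n : ℕ} {y : β}
    (hy : fs f n = some y) : ∃ k < n, f k = some y := by
  induction n with
  | zero => exact absurd hy (by simp [fs])
  | succ n ih =>
    rw [fs_succ] at hy
    rcases h : fs f n with _ | z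
    · rw [h] at hy; exact ⟨n, Nat.lt_succ_self n, hy⟩
    · rw [h] at hy
      have : z = y := Option.some.inj hy
      subst this
      obtain ⟨k, hk, e⟩ := ih h
      exact ⟨k, Nat.lt_succ_of_lt hk, e⟩

theorem fs_exists {β : Type} {f : ℕ → Option β} {n k : ℕ} {y : β} (hk : k < n)
    (hy : f k = some y) : ∃ z, fs f n = some z := by
  have h1 : ∃ z, fs f (k + 1) = some z := by
    rw [fs_succ]
    rcases h : fs f k with _ | z
    · exact ⟨y, hy⟩
    · exact ⟨z, rfl⟩
  obtain ⟨z, hz⟩ := h1
  exact ⟨z, fs_mono hk hz⟩

theorem fs_congr {β : Type} {f g : ℕ → Option β} {n : ℕ} (h : ∀ k < n, f k = g k) :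
    fs f n = fs g n := by
  induction n with
  | zero => rfl
  | succ n ih =>
    rw [fs_succ, fs_succ, ih (fun k hk => h k (Nat.lt_succ_of_lt hk)), h n (Nat.lt_succ_self n)]

theorem fs_comp {α β : Type} [Primcodable α] [Primcodable β] {f : α → ℕ → Option β} {n : α → ℕ}
    (hf : Computable₂ f) (hn : Computable n) : Computable fun a => fs (f a) (n a) := by
  have h3 : Computable₂ fun (a : α) (p : ℕ × Option β) =>
      (Option.casesOn p.2 (f a p.1) some : Option β) := by
    refine Computable.option_casesOn (α := α × ℕ × Option β) (o := fun q => q.2.2)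
      (f := fun q => f q.1 q.2.1) (g := fun _ s => some s)
      (Computable.snd.comp Computable.snd) ?_ ?_
    · exact hf.comp Computable.fst (Computable.fst.comp Computable.snd)
    · exact (Computable.option_some.comp Computable.snd).to₂
  exact (Computable.nat_rec hn (Computable.const none) h3).of_eq fun a => rfl

end Pool.Agent.H448R3
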