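import Pool.Agent.H448R3.GV

set_option autoImplicit false

/-! Binary values, bits, logarithms, and bounded use functionals. -/

namespace Pool.Agent.H448R3

open Helper743

/-- binary value -/
def val (W : ℕ → ℕ) (n : ℕ) : ℕ :=
  Nat.rec (motive := fun _ => ℕ) 0 (fun j acc => acc + 2 ^ j * W j) n

theorem val_succ (W : ℕ → ℕ) (n : ℕ) : val W (n + 1) = val W n + 2 ^ n * W n := rfl

theorem val_lt {W : ℕ → ℕ} (hW : ∀ j, W j ≤ 1) (n : ℕ) : val W n < 2 ^ n := by
  induction n with
  | zero => show 0 < 1; norm_num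
  | succ n ih =>
    rw [val_succ]
    have h1 := Nat.mul_le_mul_left (2 ^ n) (hW n)
    have h2 : 2 ^ (n + 1) = 2 ^ n + 2 ^ n := by ring
    omega

/-- bits -/
def bt (m j : ℕ) : ℕ := (m / 2 ^ j) % 2

theorem bt_val {W : ℕ → ℕ} (hW : ∀ j, W j ≤ 1) {n j : ℕ} (h : j < n) :
    bt (val W n) j = W j := by
  induction n with
  | zero => exact absurd h (Nat.not_lt_zero j)
  | succ n ih =>
    have hpos : 0 < 2 ^ n := by positivity
    unfold bt
    rw [val_succ]
    rcases Nat.lt_or_eq_of_le (Nat.lt_succ_iff.1 h) with h' | rfl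
    · have h1 := ih h'
      unfold bt at h1
      obtain ⟨d, rfl⟩ := Nat.exists_eq_add_of_lt h'
      have h2 : 2 ^ (j + d + 1) * W (j + d + 1) = 2 ^ j * (2 * (2 ^ d * W (j + d + 1))) := by ring
      rw [h2, Nat.add_mul_div_left _ _ (by positivity), Nat.add_mul_mod_self_left]
      exact h1
    · rw [Nat.add_mul_div_left _ _ hpos, Nat.div_eq_of_lt (val_lt hW j), Nat.zero_add]
      exact Nat.mod_eq_of_lt (Nat.lt_succ_of_le (hW j))

theorem bt_comp {α : Type} [Primcodable α] {f g : α → ℕ} (hf : Computable f) (hg : Computable g) :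
    Computable fun a => bt (f a) (g a) :=
  cmod (cdiv hf (pow2_comp.comp hg)) (Computable.const 2)

theorem val_comp {α : Type} [Primcodable α] {W : α → ℕ → ℕ} {n : α → ℕ} (hW : Computable₂ W)
    (hn : Computable n) : Computable fun a => val (W a) (n a) := by
  have h3 : Computable₂ fun (a : α) (p : ℕ × ℕ) => p.2 + 2 ^ p.1 * W a p.1 := by
    have c1 : Computable fun q : α × (ℕ × ℕ) => q.2.1 := Computable.fst.comp Computable.snd
    have c2 : Computable fun q : α × (ℕ × ℕ) => q.2.2 := Computable.snd.comp Computable.snd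
    exact (cadd c2 (cmul (pow2_comp.comp c1) (hW.comp Computable.fst c1))).to₂
  exact (Computable.nat_rec hn (Computable.const 0) h3).of_eq fun a => rfl

theorem pow4_comp : Computable fun n : ℕ => 4 ^ n := by
  refine (pow2_comp.comp (cmul (Computable.const 2) Computable.id)).of_eq ?_
  intro n
  show 2 ^ (2 * n) = 4 ^ n
  rw [pow_mul]; norm_num

theorem log_comp {b : ℕ} (hb : 1 < b) (hpow : Computable fun n : ℕ => b ^ n) :
    Computable (Nat.log b) := by
  have hq : Computable₂ fun (x s : ℕ) => (decide (b ^ s < x + 2) && decide (x + 1 < b ^ (s + 1))) :=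
    cand (clt (hpow.comp Computable.snd) (cadd Computable.fst (Computable.const 2)))
      (clt (cadd Computable.fst (Computable.const 1))
        (hpow.comp (cadd Computable.snd (Computable.const 1))))
  obtain ⟨F, hF, hFs⟩ := search hq (by
    intro x
    refine ⟨Nat.log b (x + 1), ?_⟩
    have h1 := Nat.pow_log_le_self b (x := x + 1) (by omega)
    have h2 := Nat.lt_pow_succ_log_self hb (x + 1)
    rw [Bool.and_eq_true, decide_eq_true_eq, decide_eq_true_eq]
    exact ⟨by omega, h2⟩)
  refine (hF.comp (csub Computable.id (Computable.const 1))).of_eq ?_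
  intro x
  have h1 := hFs (x - 1)
  rw [Bool.and_eq_true, decide_eq_true_eq, decide_eq_true_eq] at h1
  obtain ⟨h2, h3⟩ := h1
  show F (x - 1) = Nat.log b x
  rcases Nat.eq_zero_or_pos x with rfl | hx
  · rw [Nat.log_zero_right]
    by_contra hne
    have h4 : b ^ 1 ≤ b ^ F (0 - 1) := Nat.pow_le_pow_right (by omega) (Nat.pos_of_ne_zero hne)
    rw [pow_one] at h4
    omega
  · have h5 : x - 1 + 1 = x := by omega
    rw [h5] at h3
    exact ((Nat.log_eq_iff (Or.inr ⟨hb, by omega⟩)).2 ⟨by omega, h3⟩).symm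

theorem log2_comp : Computable (Nat.log 2) := log_comp (by norm_num) pow2_comp
theorem log4_comp : Computable (Nat.log 4) := log_comp (by norm_num) pow4_comp

/-- bounded use functionals -/
theorem tr_pre {O : Set (ℕ →. ℕ)} {G : ℕ → ℕ} (hG : RecT O G) {u : ℕ → ℕ} (hu : Computable u)
    {Φ : List ℕ → ℕ → ℕ} (hΦ : Computable₂ Φ) : RecT O (fun x => Φ (pre G (u x)) x) := by
  have h1 : Computable (fun z : ℕ =>
      Φ ((Encodable.decode (α := List ℕ) z.unpair.1).getD []) z.unpair.2) := by
    have a1 : Computable (fun z : ℕ => (Encodable.decode (α := List ℕ) z.unpair.1).getD []) :=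
      Computable.option_getD (Computable.decode.comp (Computable.fst.comp Computable.unpair))
        (Computable.const [])
    exact hΦ.comp a1 (Computable.snd.comp Computable.unpair)
  have h2 : RecT O (fun x => Nat.pair (Encodable.encode (pre G (u x))) x) :=
    RecT.pair ((recT_pre hG).comp (Computable.recT hu)) (Computable.recT Computable.id)
  have h3 := (Computable.recT (O := O) h1).comp h2
  refine Nat.RecursiveIn.of_eq h3 ?_
  intro x
  simp

theorem pre_getD {G : ℕ → ℕ} {n j : ℕ} (h : j < n) : (pre G n).getD j 0 = G j := by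
  rw [List.getD_eq_getElem?_getD, pre_getElem?, if_pos h]; rfl

end Pool.Agent.H448R3
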